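import Pool.Agent.helper54.Expl.Fin

/-!
# The exponential gap with a slightly better constant

The proof is the one of `Pool.Agent.helper54.Expl.exists_large`.
-/

set_option autoImplicit false
open Finset Equiv Pool.Agent.helper54.Schub Pool.Agent.helper54.Expl

namespace Pool.Agent.helper58.Far

/-- the value of some permutation exceeds the values of all layered ones by an exponential factor -/
theorem exists_large27 (n : ℕ) (hn : 10 ^ 14 ≤ n) : ∃ w : Perm ℕ, FA n w ∧ ∀ v : Perm ℕ, Lay n v →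
    Real.exp (27 * (n : ℝ) ^ 2 / 10 ^ 29) * ((val n v : ℚ) : ℝ) ≤ ((val n w : ℚ) : ℝ) := by
  obtain ⟨m, α, β, σ, hσ, hmn, hm, hα, hβ, hmax⟩ := exists_struct n (by omega)
  obtain ⟨s, hs⟩ : ∃ s, s = m / 8001000000 := ⟨_, rfl⟩
  have hs1 : 8001000000 * s ≤ m := by rw [hs]; exact Nat.mul_div_le _ _
  have hs2 : m < 8001000000 * (s + 1) := by rw [hs]; exact Nat.lt_mul_div_succ _ (by norm_num)
  have hs6 : 6 ≤ s := by omega
  obtain ⟨w, hw1, hw2⟩ := exch m α β s (by omega) (by omega) (by omega) (by omega) σ hσ.fa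
  rw [hmn] at hw1 hw2
  refine ⟨w, hw1, fun v hv => ?_⟩
  obtain ⟨L1, hL1⟩ : ∃ L1, L1 = α + 1 - 2 * s := ⟨_, rfl⟩
  obtain ⟨L2, hL2⟩ : ∃ L2, L2 = β + 1 - 2 * s := ⟨_, rfl⟩
  have ha : L1 + 2 * s - 1 = α := by omega
  have hb : L2 + 2 * s - 1 = β := by omega
  have B1 := fop_lb 8000 m m L1 s (by omega) (by omega) (by omega)
  have B2 := fop_lb 8000 (m + α + 1) (m + α + 1) L2 s (by omega) (by omega) (by omega)
  rw [ha] at B1
  rw [hb] at B2
  have hv1 : ((val n v : ℚ) : ℝ) ≤ ((val m σ : ℚ) : ℝ) * ((W m α : ℚ) : ℝ) *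
      ((W (m + α + 1) β : ℚ) : ℝ) := by exact_mod_cast hmax v hv
  have hw3 : (2 : ℝ) ^ (s * (s + 1) / 2) * (((val m σ : ℚ) : ℝ) *
      ((Fop m α s (2 * s) (m - 2 * s) : ℚ) : ℝ) *
        ((Fop (m + α + 1) β s (2 * s) (m + α + 1 - 2 * s) : ℚ) : ℝ)) ≤ ((val n w : ℚ) : ℝ) := by
    exact_mod_cast hw2
  have hσp : (0 : ℝ) < ((val m σ : ℚ) : ℝ) := by exact_mod_cast hσ.val_pos
  have hWa : (0 : ℝ) < ((W m α : ℚ) : ℝ) := by exact_mod_cast W_pos _ _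
  have hWb : (0 : ℝ) < ((W (m + α + 1) β : ℚ) : ℝ) := by exact_mod_cast W_pos _ _
  have hsn : (n : ℝ) ≤ 18700000000000 * s := by
    have h1 : n ≤ 2000 * m := hm
    have h2 : 6 * m ≤ 7 * 8001000000 * s := by omega
    have h3 : 6 * n ≤ 2000 * (7 * 8001000000 * s) := by omega
    have h4 : (6 : ℝ) * n ≤ 2000 * (7 * 8001000000 * s) := by exact_mod_cast h3
    linarith
  have hexp : 27 * (n : ℝ) ^ 2 / 10 ^ 29 ≤ 0.095 * (s : ℝ) ^ 2 := by
    have h0 : (0 : ℝ) ≤ n := Nat.cast_nonneg n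
    have h1 : (n : ℝ) ^ 2 ≤ (18700000000000 * s) ^ 2 := by gcongr
    rw [div_le_iff₀ (by positivity)]
    nlinarith [sq_nonneg (s : ℝ)]
  have hsplit : Real.exp (0.095 * (s : ℝ) ^ 2) = Real.exp (0.345 * (s : ℝ) ^ 2) *
      (Real.exp (-(s : ℝ) ^ 2 / 8) * Real.exp (-(s : ℝ) ^ 2 / 8)) := by
    rw [← Real.exp_add, ← Real.exp_add]
    congr 1
    ring
  have he := Real.exp_pos (-(s : ℝ) ^ 2 / 8)
  calc Real.exp (27 * (n : ℝ) ^ 2 / 10 ^ 29) * ((val n v : ℚ) : ℝ)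
      ≤ Real.exp (0.095 * (s : ℝ) ^ 2) * (((val m σ : ℚ) : ℝ) * ((W m α : ℚ) : ℝ) *
          ((W (m + α + 1) β : ℚ) : ℝ)) := by
        apply mul_le_mul (Real.exp_le_exp.2 hexp) hv1 _ (Real.exp_pos _).le
        have := hv.val_pos
        exact_mod_cast this.le
    _ = Real.exp (0.345 * (s : ℝ) ^ 2) * (((val m σ : ℚ) : ℝ) *
          (Real.exp (-(s : ℝ) ^ 2 / 8) * ((W m α : ℚ) : ℝ)) *
          (Real.exp (-(s : ℝ) ^ 2 / 8) * ((W (m + α + 1) β : ℚ) : ℝ))) := by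
        rw [hsplit]; ring
    _ ≤ 2 ^ (s * (s + 1) / 2) * (((val m σ : ℚ) : ℝ) *
          ((Fop m α s (2 * s) (m - 2 * s) : ℚ) : ℝ) *
          ((Fop (m + α + 1) β s (2 * s) (m + α + 1 - 2 * s) : ℚ) : ℝ)) := by
        have hA0 : 0 ≤ Real.exp (-(s : ℝ) ^ 2 / 8) * ((W m α : ℚ) : ℝ) := by positivity
        have hB0 : 0 ≤ Real.exp (-(s : ℝ) ^ 2 / 8) * ((W (m + α + 1) β : ℚ) : ℝ) := by positivity
        have hFa := hA0.trans B1
        apply mul_le_mul (two_pow_ge s) _ (by positivity) (by positivity)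
        apply mul_le_mul (mul_le_mul_of_nonneg_left B1 hσp.le) B2 hB0
        exact mul_nonneg hσp.le hFa
    _ ≤ _ := hw3

end Pool.Agent.helper58.Far
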