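import Pool.Agent.helper58.Far.Fin
import Pool.Agent.helper58.Far.Gap

/-!
# Every maximizer is far from every layered permutation
-/

set_option autoImplicit false

namespace Pool.Agent.helper58.Far

open Equiv Finset Pool.Agent.helper54.Schub Pool.Agent.helper54.Far

lemma lin_bound {m D : ℝ} (hm : 0 < m) (hD : 0 ≤ D) :
    D * (2 + Real.log (m / D)) ≤ 67 * D + m / 2 ^ 94 := by
  rcases hD.eq_or_lt with h0 | h0
  · rw [← h0, zero_mul, mul_zero, zero_add]; positivity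
  · obtain ⟨X, hX⟩ : ∃ X, X = m / 2 ^ 94 := ⟨_, rfl⟩
    have hX0 : 0 < X := by rw [hX]; positivity
    have hmX : m = 2 ^ 94 * X := by rw [hX]; ring
    have e1 : Real.log (m / D) = Real.log ((2 : ℝ) ^ 94) + Real.log (X / D) := by
      rw [← Real.log_mul (by positivity) (by positivity), hmX]
      ring_nf
    have e2 : Real.log (X / D) ≤ X / D - 1 := Real.log_le_sub_one_of_pos (by positivity)
    have e3 : D * Real.log (X / D) ≤ X - D := by
      calc D * Real.log (X / D) ≤ D * (X / D - 1) := mul_le_mul_of_nonneg_left e2 h0.le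
        _ = X - D := by field_simp
    have e4 : Real.log ((2 : ℝ) ^ 94) ≤ 66 := by
      have h2 : Real.log ((2 : ℝ) ^ 94) = 94 * Real.log 2 := by
        rw [Real.log_pow]; norm_num
      have h3 := Real.log_two_lt_d9
      linarith
    rw [← hX, e1]
    clear hmX hX e1
    generalize Real.log ((2 : ℝ) ^ 94) = L at e4 ⊢
    generalize Real.log (X / D) = M at e3 ⊢
    have e5 := mul_le_mul_of_nonneg_left e4 h0.le
    have e6 : D * (2 + (L + M)) = 2 * D + D * L + D * M := by ring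
    rw [e6]
    linarith

lemma nu_pos {n : ℕ} (hn : 1 ≤ n) {S : Perm (Fin n) → MvPolynomial (Fin n) ℤ}
    (hS : IsSchubert n S) (w : Perm (Fin n)) : 0 < ((nu S w : ℤ) : ℝ) := by
  have h3 := one_le_val hn (fa_iot w)
  rw [← nu_eq_val hS w] at h3
  have h4 : (1 : ℤ) ≤ nu S w := by exact_mod_cast h3
  have h5 : (1 : ℝ) ≤ ((nu S w : ℤ) : ℝ) := by exact_mod_cast h4
  linarith

/-- **Main theorem.** -/
theorem main (n : ℕ) (hn : 10 ^ 14 ≤ n) (S : Perm (Fin n) → MvPolynomial (Fin n) ℤ)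
    (hS : IsSchubert n S) (u : Perm (Fin n)) (hu : ∀ x : Perm (Fin n), nu S x ≤ nu S u)
    (v : Perm (Fin n)) (hv : IsLayered v) :
    (∀ w : Perm (Fin n), Real.exp ((n : ℝ) ^ 2 / (5 * 10 ^ 27) - 67 * (kendall w v : ℝ)) *
        ((nu S w : ℤ) : ℝ) ≤ ((nu S u : ℤ) : ℝ)) ∧
      n ^ 2 ≤ 4 * 10 ^ 29 * kendall u v := by
  have hn1 : 1 ≤ n := le_trans (by norm_num) hn
  have hn2 : (0 : ℝ) < (n : ℝ) ^ 2 := by
    have : (0 : ℝ) < n := by exact_mod_cast hn1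
    positivity
  have key : ∀ w : Perm (Fin n), Real.exp ((n : ℝ) ^ 2 / (5 * 10 ^ 27) -
      67 * (kendall w v : ℝ)) * ((nu S w : ℤ) : ℝ) ≤ ((nu S u : ℤ) : ℝ) := by
    intro w
    obtain ⟨W, hW1, hW2⟩ := exists_large27 n hn
    have h1 : Real.exp (27 * (n : ℝ) ^ 2 / 10 ^ 29) * ((nu S v : ℤ) : ℝ) ≤
        ((nu S u : ℤ) : ℝ) := by
      have a1 := nu_eq_val hS v
      have a2 := nu_eq_val hS (rst W hW1)
      rw [iot_rst] at a2
      have a3 := hW2 (iot v) hv.lay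
      rw [← a1, ← a2] at a3
      have a4 : ((nu S (rst W hW1) : ℤ) : ℝ) ≤ ((nu S u : ℤ) : ℝ) := by
        exact_mod_cast hu (rst W hW1)
      refine le_trans ?_ a4
      exact_mod_cast a3
    have h2 := cmp_layered hS w v hv
    have h3 := lin_bound hn2 (Nat.cast_nonneg (kendall w v))
    have h4 : (n : ℝ) ^ 2 / 2 ^ 94 ≤ 7 * ((n : ℝ) ^ 2 / 10 ^ 29) := by
      rw [div_le_iff₀ (by positivity)]
      have : (7 : ℝ) * ((n : ℝ) ^ 2 / 10 ^ 29) * 2 ^ 94 = (n : ℝ) ^ 2 * (7 * 2 ^ 94 / 10 ^ 29) := by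
        ring
      rw [this]
      have h5 : (1 : ℝ) ≤ 7 * 2 ^ 94 / 10 ^ 29 := by norm_num
      nlinarith
    have pv := nu_pos hn1 hS v
    calc Real.exp ((n : ℝ) ^ 2 / (5 * 10 ^ 27) - 67 * (kendall w v : ℝ)) * ((nu S w : ℤ) : ℝ)
        ≤ Real.exp ((n : ℝ) ^ 2 / (5 * 10 ^ 27) - 67 * (kendall w v : ℝ)) *
          (Real.exp ((kendall w v : ℝ) * (2 + Real.log ((n : ℝ) ^ 2 / (kendall w v : ℝ)))) *
            ((nu S v : ℤ) : ℝ)) := mul_le_mul_of_nonneg_left h2 (Real.exp_nonneg _)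
      _ = Real.exp ((n : ℝ) ^ 2 / (5 * 10 ^ 27) - 67 * (kendall w v : ℝ) +
          (kendall w v : ℝ) * (2 + Real.log ((n : ℝ) ^ 2 / (kendall w v : ℝ)))) *
            ((nu S v : ℤ) : ℝ) := by rw [Real.exp_add, mul_assoc]
      _ ≤ Real.exp (27 * (n : ℝ) ^ 2 / 10 ^ 29) * ((nu S v : ℤ) : ℝ) := by
          apply mul_le_mul_of_nonneg_right _ pv.le
          apply Real.exp_le_exp.2
          have e1 : (n : ℝ) ^ 2 / (5 * 10 ^ 27) = 20 * ((n : ℝ) ^ 2 / 10 ^ 29) := by ring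
          have e2 : 27 * (n : ℝ) ^ 2 / 10 ^ 29 = 27 * ((n : ℝ) ^ 2 / 10 ^ 29) := by ring
          rw [e1, e2]
          linarith
      _ ≤ _ := h1
  refine ⟨key, ?_⟩
  have h1 := key u
  have pu := nu_pos hn1 hS u
  have h2 : Real.exp ((n : ℝ) ^ 2 / (5 * 10 ^ 27) - 67 * (kendall u v : ℝ)) ≤ 1 := by
    have h3 : Real.exp ((n : ℝ) ^ 2 / (5 * 10 ^ 27) - 67 * (kendall u v : ℝ)) *
        ((nu S u : ℤ) : ℝ) ≤ 1 * ((nu S u : ℤ) : ℝ) := by rw [one_mul]; exact h1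
    exact le_of_mul_le_mul_right h3 pu
  rw [Real.exp_le_one_iff] at h2
  have h4 : (n : ℝ) ^ 2 ≤ 4 * 10 ^ 29 * (kendall u v : ℝ) := by
    have h5 : (n : ℝ) ^ 2 / (5 * 10 ^ 27) ≤ 67 * (kendall u v : ℝ) := by linarith
    rw [div_le_iff₀ (by positivity)] at h5
    have h6 : (0 : ℝ) ≤ (kendall u v : ℝ) := Nat.cast_nonneg _
    linarith
  exact_mod_cast h4

end Pool.Agent.helper58.Far
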