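import Pool.Agent.helper58.Far.Inv
import Pool.Agent.helper54.Far.FDefs

/-!
# The two inequalities for the coefficient sums
-/

set_option autoImplicit false

namespace Pool.Agent.helper58.Far

open Equiv Finset Pool.Agent.helper54.Schub Pool.Agent.helper54.Far

lemma dn_zero_var (u : ℕ → Module.End ℚ (Perm ℕ → ℚ)) : ∀ (l p : ℕ), dn u (0 : ℚ) l p = 1
  | 0, _ => rfl
  | (l + 1), p => by rw [dn_succ, dn_zero_var u l (p + 1), fac_zero', one_mul]

lemma schx_zero_var (u : ℕ → Module.End ℚ (Perm ℕ → ℚ)) : ∀ (l p : ℕ), schx u (0 : ℚ) l p = 1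
  | 0, _ => rfl
  | (l + 1), p => by rw [schx_succ, dn_zero_var, schx_zero_var u l (p + 1), one_mul]

lemma srv_eq_schx (y : ℚ) (l p : ℕ) : srv (lam ℚ) y l p = schx (lam ℚ) y l p := by
  have := srv_mul_schx (K := ℚ) (nilCox_lam (K := ℚ)) 0 y l p
  rwa [schx_zero_var, mul_one, zero_add] at this

lemma val_eq_wp (n : ℕ) (v : Perm ℕ) : val n v = cf v (wp (lam ℚ) (1 : ℚ) (wsc (n - 1) 0)) := by
  rw [wp_wsc, ← sch_eq_schx]; rfl

lemma mem_word (n : ℕ) : ∀ j ∈ wsc (n - 1) 0, j + 1 < n := by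
  intro j hj
  have := mem_wsc (n - 1) 0 j hj
  omega

lemma length_word (n : ℕ) : (wsc (n - 1) 0).length = n * (n - 1) / 2 := by
  have h := length_wsc (n - 1) 0
  rcases Nat.eq_zero_or_pos n with h0 | h0
  · subst h0; simp [wsc]
  · rw [show n - 1 + 1 = n by omega, mul_comm (n - 1) n] at h
    omega

lemma rel_of_subset {n : ℕ} {z w : Perm ℕ} (hz : FA n z) (h : Iv n z ⊆ Iv n w) : Rel z w := by
  intro a b hab hb
  have hbn : b < n := by
    by_contra hc
    have h1 : z b = b := hz b (by omega)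
    by_cases ha : a < n
    · have := hz.lt ha
      omega
    · have h2 : z a = a := hz a (by omega)
      omega
  have h1 : (a, b) ∈ Iv n z := by
    unfold Iv
    rw [mem_filter, mem_product, mem_range, mem_range]
    exact ⟨⟨by simp only; omega, hbn⟩, hab, hb⟩
  have h2 := h h1
  unfold Iv at h2
  rw [mem_filter] at h2
  exact h2.2.2

lemma Iv_eq (n : ℕ) (w : Perm ℕ) : Iv n w = invS n w := rfl

/-- going up -/
theorem val_up (n k : ℕ) (w z : Perm ℕ) (hz : FA n z) (h : Iv n z ⊆ Iv n w)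
    (hk : (Iv n w).card = (Iv n z).card + k) (t : ℚ) (ht : 0 < t) :
    t ^ k * val n w ≤ (1 + t) ^ (n * (n - 1) / 2) * val n z := by
  rw [val_eq_wp, val_eq_wp, ← length_word]
  exact up_bound n ht _ (mem_word n) z w k (rel_of_subset hz h) hk

lemma rel_w0 {n : ℕ} (hn : 1 ≤ n) (a : Perm ℕ) : Iv n a ⊆ Iv n (rv 0 (n - 1)) := by
  rintro ⟨x, y⟩ hp
  unfold Iv at hp ⊢
  rw [mem_filter, mem_product, mem_range, mem_range] at hp ⊢
  obtain ⟨⟨h1, h2⟩, h3, h4⟩ := hp
  refine ⟨⟨h1, h2⟩, h3, ?_⟩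
  simp only at h1 h2 h3 ⊢
  rw [rv_apply, rv_apply, if_pos (by omega), if_pos (by omega)]
  omega

/-- every coefficient sum is at least one -/
theorem one_le_val {n : ℕ} (hn : 1 ≤ n) {a : Perm ℕ} (ha : FA n a) : 1 ≤ val n a := by
  have h1 := val_up n ((Iv n (rv 0 (n - 1))).card - (Iv n a).card) (rv 0 (n - 1)) a ha
    (rel_w0 hn a) (by have := card_le_card (rel_w0 hn a); omega) 1 one_pos
  have h2 : val n (rv 0 (n - 1)) = 1 := by
    unfold Pool.Agent.helper54.Schub.val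
    rw [← sprod_one, cf_sprod_rv]
    simp
  rw [h2, one_pow, one_mul] at h1
  rw [val_eq_wp] at h1 ⊢
  apply one_le_of_pos
  have h3 : (0 : ℚ) < (1 + 1) ^ (n * (n - 1) / 2) := by positivity
  by_contra hc
  push Not at hc
  have := mul_nonpos_of_nonneg_of_nonpos h3.le hc
  linarith

/-- the number of inversions of a quotient -/
lemma inv_quot {n : ℕ} {z v : Perm ℕ} (hz : FA n z) (h : Rel z v) :
    invN n v = invN n z + invN n (v * z⁻¹) := by
  have hsub : invS n z ⊆ invS n v := by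
    rintro ⟨a, b⟩ hp
    rw [mem_invS] at hp ⊢
    exact ⟨hp.1, hp.2.1, hp.2.2.1, h _ _ hp.2.2.1 hp.2.2.2⟩
  have h1 : (invS n v \ invS n z).card = (invS n (v * z⁻¹)).card := by
    refine Finset.card_nbij' (fun p => (z p.1, z p.2)) (fun p => (z⁻¹ p.1, z⁻¹ p.2)) ?_ ?_ ?_ ?_
    · rintro ⟨a, b⟩ hp
      rw [Finset.mem_coe, mem_sdiff, mem_invS, mem_invS] at hp
      obtain ⟨⟨h1, h2, h3, h4⟩, h5⟩ := hp
      simp only at h1 h2 h3 h4 h5
      have h6 : z a ≠ z b := fun e => by have := z.injective e; omega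
      have h7 : ¬ z b < z a := fun e => h5 ⟨h1, h2, h3, e⟩
      rw [Finset.mem_coe, mem_invS]
      refine ⟨hz.lt h1, hz.lt h2, by simp only; omega, ?_⟩
      simp only [Perm.mul_apply, inv_ap]
      exact h4
    · rintro ⟨c, d⟩ hp
      rw [Finset.mem_coe, mem_invS] at hp
      obtain ⟨h1, h2, h3, h4⟩ := hp
      simp only [Perm.mul_apply] at h1 h2 h3 h4
      have h5 : z⁻¹ c < z⁻¹ d := by
        by_contra hc
        have h6 : z⁻¹ c ≠ z⁻¹ d := fun e => by have := (z⁻¹).injective e; omega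
        have h7 := h (z⁻¹ d) (z⁻¹ c) (by omega) (by rw [ap_inv, ap_inv]; exact h3)
        omega
      rw [Finset.mem_coe, mem_sdiff, mem_invS, mem_invS]
      refine ⟨⟨hz.inv.lt h1, hz.inv.lt h2, h5, h4⟩, ?_⟩
      rintro ⟨_, _, _, h8⟩
      simp only [ap_inv] at h8
      omega
    · rintro ⟨a, b⟩ _; simp only [inv_ap]
    · rintro ⟨a, b⟩ _; simp only [ap_inv]
  rw [card_sdiff_of_subset hsub] at h1
  have h2 := card_le_card hsub
  unfold invN
  omega

/-- going down, with the value of the quotient -/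
theorem val_down_mul (n : ℕ) (v z : Perm ℕ) (h : Rel z v) (y : ℚ) (hy : 0 ≤ y) (hy1 : y ≤ 1) :
    (1 - y) ^ (n * (n - 1) / 2) * y ^ invN n (v * z⁻¹) * (val n (v * z⁻¹) * val n z) ≤
      val n v := by
  have h1 : val n v = wp (lam ℚ) y (wsc (n - 1) 0)
      (wp (lam ℚ) (1 - y) (wsc (n - 1) 0) (del ℚ)) v := by
    rw [val_eq_wp, wp_wsc, wp_wsc, wp_wsc, ← srv_eq_schx y]
    have := srv_mul_schx (K := ℚ) (nilCox_lam (K := ℚ)) (1 - y) y (n - 1) 0
    rw [show (1 - y) + y = 1 by ring] at this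
    rw [← this]
    rfl
  have hf : ∀ w, 0 ≤ wp (lam ℚ) (1 - y) (wsc (n - 1) 0) (del ℚ) w :=
    fun w => wp_nonneg (by linarith) del_nonneg _ w
  have h2 := mul_lower hy hf (wsc (n - 1) 0) v z h
  rw [← h1, cf_wp_homog n y _ (mem_word n), ← val_eq_wp] at h2
  have h3 := wp_small (x := 1 - y) (by linarith) (by linarith) del_nonneg (wsc (n - 1) 0) z
  rw [length_word] at h3
  have h4 : val n z = wp (lam ℚ) (1 : ℚ) (wsc (n - 1) 0) (del ℚ) z := val_eq_wp n z
  rw [← h4] at h3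
  have h5 : 0 ≤ val n (v * z⁻¹) := by
    rw [val_eq_wp]; exact cf_wp_nonneg zero_le_one _ _
  refine le_trans ?_ h2
  calc (1 - y) ^ (n * (n - 1) / 2) * y ^ invN n (v * z⁻¹) * (val n (v * z⁻¹) * val n z)
      = y ^ invN n (v * z⁻¹) * val n (v * z⁻¹) * ((1 - y) ^ (n * (n - 1) / 2) * val n z) := by ring
    _ ≤ _ := mul_le_mul_of_nonneg_left h3 (mul_nonneg (pow_nonneg hy _) h5)

/-- going down -/
theorem val_down (n k : ℕ) (hn : 1 ≤ n) (v z : Perm ℕ) (hv : FA n v) (hz : FA n z)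
    (h : Iv n z ⊆ Iv n v) (hk : (Iv n v).card = (Iv n z).card + k) (y : ℚ) (hy : 0 ≤ y)
    (hy1 : y ≤ 1) : (1 - y) ^ (n * (n - 1) / 2) * y ^ k * val n z ≤ val n v := by
  have hr := rel_of_subset hz h
  have h1 := inv_quot hz hr
  have h2 : invN n (v * z⁻¹) = k := by
    rw [Iv_eq, Iv_eq] at hk
    unfold invN at h1 ⊢
    omega
  have h3 := val_down_mul n v z hr y hy hy1
  rw [h2] at h3
  have h4 := one_le_val hn (hv.mul hz.inv)
  have h5 : 0 ≤ val n z := by
    rw [val_eq_wp]; exact cf_wp_nonneg zero_le_one _ _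
  refine le_trans ?_ h3
  apply mul_le_mul_of_nonneg_left
  · calc val n z = 1 * val n z := (one_mul _).symm
      _ ≤ _ := mul_le_mul_of_nonneg_right h4 h5
  · apply mul_nonneg (pow_nonneg (by linarith) _) (pow_nonneg hy _)

end Pool.Agent.helper58.Far
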