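import Pool.Agent.helper58.Far.Exp

/-!
# Products are bounded above by convolutions
-/

set_option autoImplicit false

namespace Pool.Agent.helper58.Far

open Equiv Finset Pool.Agent.helper54.Schub Pool.Agent.helper54.Far

lemma iot_mul {n : ℕ} (a b : Perm (Fin n)) : iot (a * b) = iot a * iot b := by
  ext x
  rw [Perm.mul_apply]
  by_cases h : x < n
  · have h1 := iot_apply (a * b) ⟨x, h⟩
    have h2 := iot_apply b ⟨x, h⟩
    have h3 := iot_apply a (b ⟨x, h⟩)
    simp only at h1 h2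
    rw [h1, h2, h3, Perm.mul_apply]
  · rw [iot_apply_of_ge _ (by omega), iot_apply_of_ge b (by omega), iot_apply_of_ge a (by omega)]

lemma iot_one (n : ℕ) : iot (1 : Perm (Fin n)) = 1 := by
  ext x
  by_cases h : x < n
  · have h1 := iot_apply (1 : Perm (Fin n)) ⟨x, h⟩
    simp only at h1
    rw [h1]; rfl
  · rw [iot_apply_of_ge _ (by omega)]; rfl

lemma iot_inv {n : ℕ} (a : Perm (Fin n)) : iot a⁻¹ = (iot a)⁻¹ := by
  rw [eq_inv_iff_mul_eq_one, ← iot_mul, inv_mul_cancel, iot_one]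

/-- the adjacent transposition in `Fin n` -/
def sF {n : ℕ} (j : ℕ) (h : j + 1 < n) : Perm (Fin n) := swap ⟨j, by omega⟩ ⟨j + 1, h⟩

lemma iot_sF {n : ℕ} (j : ℕ) (h : j + 1 < n) : iot (sF j h) = sj j := by
  have := iot_mul_swap (1 : Perm (Fin n)) (i := ⟨j, by omega⟩) (j := ⟨j + 1, h⟩) rfl
  rw [one_mul, iot_one, one_mul] at this
  exact this

lemma conv_rel {z w : Perm ℕ} {j : ℕ} (hd : w⁻¹ (j + 1) < w⁻¹ j) (h : Rel z (sj j * w)) :
    z (w⁻¹ (j + 1)) < z (w⁻¹ j) ∧ Rel z w := by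
  constructor
  · by_contra hc
    have hne : z (w⁻¹ (j + 1)) ≠ z (w⁻¹ j) := by simp
    have h1 := h _ _ hd (by omega)
    rw [Perm.mul_apply, Perm.mul_apply, ap_inv, ap_inv, sj_left, sj_right] at h1
    omega
  · intro a b hab hb
    have h1 := h a b hab hb
    rw [Perm.mul_apply, Perm.mul_apply] at h1
    by_contra hc
    have hne : w a ≠ w b := fun e => by have := w.injective e; omega
    have h2 : ¬ (w a = j ∧ w b = j + 1) := by
      rintro ⟨e1, e2⟩
      have e3 : a = w⁻¹ j := by rw [← e1, inv_ap]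
      have e4 : b = w⁻¹ (j + 1) := by rw [← e2, inv_ap]
      omega
    have h3 := sj_mono (j := j) (show w a < w b by omega) h2
    omega

open scoped Classical in
/-- the summand of the convolution -/
noncomputable def cvt {n : ℕ} (f : Perm ℕ → ℚ) (x w : Perm (Fin n)) : ℚ :=
  if Rel (iot (x⁻¹ * w)) (iot w) then f (iot (x⁻¹ * w)) else 0

lemma cvt_nonneg {n : ℕ} {f : Perm ℕ → ℚ} (hf : ∀ w, 0 ≤ f w) (x w : Perm (Fin n)) :
    0 ≤ cvt f x w := by
  unfold cvt
  split_ifs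
  · exact hf _
  · exact le_rfl

/-- **Convolution bound.** -/
theorem conv {n : ℕ} {y : ℚ} (hy : 0 ≤ y) {f : Perm ℕ → ℚ} (hf : ∀ w, 0 ≤ f w) :
    ∀ (L : List ℕ), (∀ j ∈ L, j + 1 < n) → ∀ w : Perm (Fin n),
      wp (lam ℚ) y L f (iot w) ≤
        ∑ x : Perm (Fin n), cf (iot x) (wp (lam ℚ) y L) * cvt f x w
  | [], _, w => by
    rw [wp_nil, Module.End.one_apply]
    have h1 : cf (iot (1 : Perm (Fin n))) (1 : Module.End ℚ (Perm ℕ → ℚ)) * cvt f 1 w =
        f (iot w) := by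
      rw [iot_one, cf_one, del_one, one_mul, cvt, inv_one, one_mul, if_pos (Rel.refl _)]
    rw [← h1]
    refine single_le_sum (f := fun x : Perm (Fin n) =>
      cf (iot x) (1 : Module.End ℚ (Perm ℕ → ℚ)) * cvt f x w) ?_ (mem_univ _)
    intro x _
    rw [cf_one]
    exact mul_nonneg (del_nonneg _) (cvt_nonneg hf _ _)
  | (j :: L), hL, w => by
    have hj : j + 1 < n := hL j (by simp)
    have ih := conv hy hf L (fun i hi => hL i (by simp [hi]))
    have e0 : ∀ x : Perm (Fin n), iot (sF j hj * x) = sj j * iot x := by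
      intro x; rw [iot_mul, iot_sF]
    have e1 : ∀ x : Perm (Fin n), cf (iot x) (wp (lam ℚ) y (j :: L)) =
        cf (iot x) (wp (lam ℚ) y L) + y * (if (iot x)⁻¹ (j + 1) < (iot x)⁻¹ j then
          cf (iot (sF j hj * x)) (wp (lam ℚ) y L) else 0) := by
      intro x
      rw [wp_cons, fac, add_mul, one_mul, smul_mul_assoc, cf_add, cf_smul, cf_lam_mul, e0]
    have c0 : ∀ x : Perm (Fin n), 0 ≤ cf (iot x) (wp (lam ℚ) y L) :=
      fun x => cf_wp_nonneg hy L _
    have e2 : ∑ x : Perm (Fin n), cf (iot x) (wp (lam ℚ) y (j :: L)) * cvt f x w =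
        ∑ x : Perm (Fin n), cf (iot x) (wp (lam ℚ) y L) * cvt f x w +
        y * ∑ x : Perm (Fin n), (if (iot x)⁻¹ (j + 1) < (iot x)⁻¹ j then
          cf (iot (sF j hj * x)) (wp (lam ℚ) y L) else 0) * cvt f x w := by
      rw [mul_sum, ← sum_add_distrib]
      apply sum_congr rfl
      intro x _
      rw [e1]; ring
    rw [e2, wp_cons, Module.End.mul_apply, fac_apply, Pi.add_apply, Pi.smul_apply, lam_apply,
      smul_eq_mul]
    apply add_le_add (ih w)
    apply mul_le_mul_of_nonneg_left _ hy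
    by_cases hd : (iot w)⁻¹ (j + 1) < (iot w)⁻¹ j
    · rw [if_pos hd, ← e0]
      refine (ih (sF j hj * w)).trans ?_
      rw [← Equiv.sum_comp (Equiv.mulLeft (sF j hj))]
      apply sum_le_sum
      intro x _
      rw [Equiv.coe_mulLeft]
      have e3 : (sF j hj * x)⁻¹ * (sF j hj * w) = x⁻¹ * w := by group
      by_cases hr : Rel (iot (x⁻¹ * w)) (sj j * iot w)
      · obtain ⟨h1, h2⟩ := conv_rel hd hr
        have h3 : (iot x)⁻¹ (j + 1) < (iot x)⁻¹ j := by
          have e4 : ∀ t, (iot x)⁻¹ t = iot (x⁻¹ * w) ((iot w)⁻¹ t) := by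
            intro t
            rw [iot_mul, iot_inv, Perm.mul_apply, ap_inv]
          rw [e4, e4]; exact h1
        rw [if_pos h3, cvt, cvt, e3, e0 w, if_pos hr, if_pos h2]
      · have : cvt f (sF j hj * x) (sF j hj * w) = 0 := by
          rw [cvt, e3, e0 w, if_neg hr]
        rw [this, mul_zero]
        apply mul_nonneg _ (cvt_nonneg hf _ _)
        split_ifs
        · exact c0 _
        · exact le_rfl
    · rw [if_neg hd]
      apply sum_nonneg
      intro x _
      apply mul_nonneg _ (cvt_nonneg hf _ _)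
      split_ifs
      · exact c0 _
      · exact le_rfl

/-- crude form -/
theorem conv_le {n : ℕ} {y : ℚ} (hy : 0 ≤ y) {f : Perm ℕ → ℚ} (hf : ∀ w, 0 ≤ f w) (L : List ℕ)
    (hL : ∀ j ∈ L, j + 1 < n) {A B : ℚ} (hA : ∀ x : Perm (Fin n), cf (iot x) (wp (lam ℚ) y L) ≤ A)
    (hB : ∀ x : Perm (Fin n), f (iot x) ≤ B) (w : Perm (Fin n)) :
    wp (lam ℚ) y L f (iot w) ≤ (n.factorial : ℚ) * (A * B) := by
  refine (conv hy hf L hL w).trans ?_
  have hA0 : 0 ≤ A := (cf_wp_nonneg hy L _).trans (hA 1)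
  have hB0 : 0 ≤ B := (hf _).trans (hB 1)
  calc ∑ x : Perm (Fin n), cf (iot x) (wp (lam ℚ) y L) * cvt f x w
      ≤ ∑ _x : Perm (Fin n), A * B := by
        apply sum_le_sum
        intro x _
        apply mul_le_mul (hA x) _ (cvt_nonneg hf _ _) hA0
        unfold cvt
        split_ifs
        · exact hB _
        · exact hB0
    _ = (n.factorial : ℚ) * (A * B) := by
        rw [sum_const, card_univ, Fintype.card_perm, Fintype.card_fin, nsmul_eq_mul]

/-- the operator with all variables equal to `y` -/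
lemma op_add (n : ℕ) (x y : ℚ) (f : Perm ℕ → ℚ) :
    wp (lam ℚ) (x + y) (wsc (n - 1) 0) f =
      wp (lam ℚ) y (wsc (n - 1) 0) (wp (lam ℚ) x (wsc (n - 1) 0) f) := by
  rw [wp_wsc, wp_wsc, wp_wsc, ← srv_eq_schx y,
    ← srv_mul_schx (K := ℚ) (nilCox_lam (K := ℚ)) x y (n - 1) 0]
  rfl

lemma invN_w0 (n : ℕ) : invN n (rv 0 (n - 1)) = n * (n - 1) / 2 := by
  rcases Nat.eq_zero_or_pos n with h0 | h0
  · subst h0; rfl
  · have h1 : invS n (rv 0 (n - 1)) = (range n ×ˢ range n).filter fun p => p.1 < p.2 := by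
      ext ⟨a, b⟩
      rw [mem_invS, mem_filter, mem_product, mem_range, mem_range]
      simp only
      constructor
      · rintro ⟨h1, h2, h3, _⟩; exact ⟨⟨h1, h2⟩, h3⟩
      · rintro ⟨⟨h1, h2⟩, h3⟩
        refine ⟨h1, h2, h3, ?_⟩
        rw [rv_apply, rv_apply, if_pos (by omega), if_pos (by omega)]
        omega
    unfold invN
    rw [h1]
    have h2 : ((range n ×ˢ range n).filter fun p : ℕ × ℕ => p.1 < p.2).card =
        ∑ b ∈ range n, b := by
      rw [card_filter, sum_product_right]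
      apply sum_congr rfl
      intro b hb
      rw [mem_range] at hb
      rw [← card_filter]
      have : (range n).filter (fun a => a < b) = range b := by
        ext x; simp only [mem_filter, mem_range]; omega
      rw [this, card_range]
    rw [h2, sum_range_id]

/-- **First stationarity inequality.** `2 ^ inv w ≤ n! ν_w` for a maximizer. -/
theorem two_pow_inv {n : ℕ} (hn : 1 ≤ n) (w : Perm (Fin n))
    (hw : ∀ x : Perm (Fin n), val n (iot x) ≤ val n (iot w)) :
    (2 : ℚ) ^ invN n (iot w) ≤ (n.factorial : ℚ) * val n (iot w) := by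
  have h1 := cf_wp_homog n 2 _ (mem_word n) (iot w)
  have h2 : cf (iot w) (wp (lam ℚ) (2 : ℚ) (wsc (n - 1) 0)) =
      wp (lam ℚ) (1 : ℚ) (wsc (n - 1) 0) (wp (lam ℚ) (1 : ℚ) (wsc (n - 1) 0) (del ℚ))
        (iot w) := by
    rw [← op_add, show (1 : ℚ) + 1 = 2 by norm_num]; rfl
  have h3 := conv_le zero_le_one (f := wp (lam ℚ) (1 : ℚ) (wsc (n - 1) 0) (del ℚ))
    (fun v => wp_nonneg zero_le_one del_nonneg _ v) (wsc (n - 1) 0) (mem_word n)
    (A := val n (iot w)) (B := val n (iot w))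
    (fun x => by rw [← val_eq_wp]; exact hw x)
    (fun x => by have := hw x; rw [val_eq_wp n (iot x)] at this; exact this) w
  rw [← h2, h1, ← val_eq_wp] at h3
  have h4 : 0 < val n (iot w) := lt_of_lt_of_le one_pos (one_le_val hn (fa_iot w))
  have h5 : (2 : ℚ) ^ invN n (iot w) * val n (iot w) ≤
      (n.factorial : ℚ) * val n (iot w) * val n (iot w) := by
    rw [mul_assoc (n.factorial : ℚ)]; exact h3
  exact le_of_mul_le_mul_right h5 h4

/-- **Lower bound for the maximum.** `3 ^ (n (n-1) / 2) ≤ (n!)² u³`. -/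
theorem three_pow {n : ℕ} (U : ℚ)
    (hU : ∀ x : Perm (Fin n), val n (iot x) ≤ U) :
    (3 : ℚ) ^ (n * (n - 1) / 2) ≤ (n.factorial : ℚ) ^ 2 * U ^ 3 := by
  have hU' : ∀ x : Perm (Fin n), cf (iot x) (wp (lam ℚ) (1 : ℚ) (wsc (n - 1) 0)) ≤ U :=
    fun x => by rw [← val_eq_wp]; exact hU x
  have hnn : ∀ v, 0 ≤ wp (lam ℚ) (1 : ℚ) (wsc (n - 1) 0) (del ℚ) v :=
    fun v => wp_nonneg zero_le_one del_nonneg _ v
  have h1 : ∀ x : Perm (Fin n), wp (lam ℚ) (2 : ℚ) (wsc (n - 1) 0) (del ℚ) (iot x) ≤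
      (n.factorial : ℚ) * (U * U) := by
    intro x
    rw [show (2 : ℚ) = 1 + 1 by norm_num, op_add]
    exact conv_le zero_le_one hnn _ (mem_word n) hU' hU' x
  have h2 := conv_le zero_le_one (f := wp (lam ℚ) (2 : ℚ) (wsc (n - 1) 0) (del ℚ))
    (fun v => wp_nonneg (by norm_num) del_nonneg _ v) (wsc (n - 1) 0) (mem_word n) hU' h1
    (Fin.revPerm : Perm (Fin n))
  rw [← op_add, show (2 : ℚ) + 1 = 3 by norm_num, iot_rev] at h2
  have h3 := cf_wp_homog n 3 _ (mem_word n) (rv 0 (n - 1))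
  have h4 : val n (rv 0 (n - 1)) = 1 := by
    unfold Pool.Agent.helper54.Schub.val
    rw [← sprod_one, cf_sprod_rv]
    simp
  rw [← val_eq_wp, h4, mul_one, invN_w0] at h3
  calc (3 : ℚ) ^ (n * (n - 1) / 2) = cf (rv 0 (n - 1)) (wp (lam ℚ) (3 : ℚ) (wsc (n - 1) 0)) :=
        h3.symm
    _ ≤ (n.factorial : ℚ) * (U * ((n.factorial : ℚ) * (U * U))) := h2
    _ = _ := by ring

end Pool.Agent.helper58.Far
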