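import Mathlib

/-!
# The numbers of the window theorem
-/

set_option autoImplicit false

namespace Pool.Agent.helper58.Far

lemma log_three_ge : 1.58 * Real.log 2 ≤ Real.log 3 := by
  have h1 : Real.log ((2 : ℝ) ^ 158) ≤ Real.log ((3 : ℝ) ^ 100) :=
    Real.log_le_log (by positivity) (by norm_num)
  rw [Real.log_pow, Real.log_pow] at h1
  push_cast at h1
  have h2 := Real.log_two_gt_d9
  linarith

lemma log_a_le : Real.log (17 / 15) ≤ 0.181 * Real.log 2 := by
  have h1 : Real.log ((17 / 15 : ℝ) ^ 221) ≤ Real.log ((2 : ℝ) ^ 40) :=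
    Real.log_le_log (by positivity) (by norm_num)
  rw [Real.log_pow, Real.log_pow] at h1
  push_cast at h1
  have h2 := Real.log_two_gt_d9
  linarith

lemma log_b_le : Real.log (15 / 2) ≤ 2.907 * Real.log 2 := by
  have h1 : Real.log ((15 / 2 : ℝ) ^ 43) ≤ Real.log ((2 : ℝ) ^ 125) :=
    Real.log_le_log (by positivity) (by norm_num)
  rw [Real.log_pow, Real.log_pow] at h1
  push_cast at h1
  have h2 := Real.log_two_gt_d9
  linarith

lemma log_c_le : Real.log (1639 / 1000) ≤ 0.713 * Real.log 2 := by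
  have h1 : Real.log ((1639 / 1000 : ℝ) ^ 209) ≤ Real.log ((2 : ℝ) ^ 149) :=
    Real.log_le_log (by positivity) (by norm_num)
  rw [Real.log_pow, Real.log_pow] at h1
  push_cast at h1
  have h2 := Real.log_two_gt_d9
  linarith

lemma log_n_le (n : ℕ) (hn : 10 ^ 6 ≤ n) : Real.log n ≤ 13 + (n : ℝ) / 10 ^ 6 := by
  have hn' : (10 : ℝ) ^ 6 ≤ n := by exact_mod_cast hn
  have hpos : (0 : ℝ) < n := by linarith [show (0 : ℝ) < 10 ^ 6 by norm_num]
  have h1 : Real.log n = Real.log ((10 : ℝ) ^ 6) + Real.log ((n : ℝ) / 10 ^ 6) := by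
    rw [← Real.log_mul (by positivity) (by positivity)]
    congr 1
    field_simp
  have h2 : Real.log ((n : ℝ) / 10 ^ 6) ≤ (n : ℝ) / 10 ^ 6 - 1 :=
    Real.log_le_sub_one_of_pos (by positivity)
  have h3 : Real.log ((10 : ℝ) ^ 6) ≤ 14 := by
    have h4 : Real.log ((10 : ℝ) ^ 6) ≤ Real.log ((2 : ℝ) ^ 20) :=
      Real.log_le_log (by positivity) (by norm_num)
    rw [show Real.log ((2 : ℝ) ^ 20) = 20 * Real.log 2 by rw [Real.log_pow]; norm_num] at h4
    have := Real.log_two_lt_d9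
    refine h4.trans ?_
    linarith
  rw [h1]
  generalize Real.log ((10 : ℝ) ^ 6) = a at h3 ⊢
  generalize Real.log ((n : ℝ) / 10 ^ 6) = b at h2 ⊢
  linarith

lemma log_fac_le (n : ℕ) : Real.log (n.factorial : ℝ) ≤ n * Real.log n := by
  have h1 : (n.factorial : ℝ) ≤ (n : ℝ) ^ n := by exact_mod_cast Nat.factorial_le_pow n
  have h2 : (0 : ℝ) < n.factorial := by exact_mod_cast Nat.factorial_pos n
  calc Real.log (n.factorial : ℝ) ≤ Real.log ((n : ℝ) ^ n) := Real.log_le_log h2 h1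
    _ = n * Real.log n := by rw [Real.log_pow]

lemma half_cast (n : ℕ) : 2 * ((n * (n - 1) / 2 : ℕ) : ℝ) = (n : ℝ) * (n - 1) := by
  rcases Nat.eq_zero_or_pos n with h | h
  · subst h; simp
  · have h1 : 2 * (n * (n - 1) / 2) = n * (n - 1) :=
      Nat.mul_div_cancel' (Nat.even_mul_pred_self n).two_dvd
    have h2 : (2 : ℝ) * ((n * (n - 1) / 2 : ℕ) : ℝ) = ((n * (n - 1) : ℕ) : ℝ) := by
      exact_mod_cast h1
    rw [h2]
    push_cast [Nat.cast_sub h]
    ring

lemma num_low (n l : ℕ) (hn : 10 ^ 6 ≤ n) (U : ℝ) (hU : 0 < U)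
    (h1 : (3 : ℝ) ^ (n * (n - 1) / 2) ≤ (n.factorial : ℝ) ^ 2 * U ^ 3)
    (h2 : (2 / 15 : ℝ) ^ l * U ≤ (17 / 15 : ℝ) ^ (n * (n - 1) / 2)) : n ^ 2 ≤ 17 * l := by
  have hn' : (10 : ℝ) ^ 6 ≤ n := by exact_mod_cast hn
  have hn1 : 1 ≤ n := le_trans (by norm_num) hn
  have hN := half_cast n
  obtain ⟨N, hNN⟩ : ∃ N, N = n * (n - 1) / 2 := ⟨_, rfl⟩
  rw [← hNN] at h1 h2 hN
  have hf : (0 : ℝ) < n.factorial := by exact_mod_cast Nat.factorial_pos n
  have a1 : (N : ℝ) * Real.log 3 ≤ 2 * Real.log (n.factorial : ℝ) + 3 * Real.log U := by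
    have := Real.log_le_log (by positivity) h1
    rw [Real.log_pow, Real.log_mul (by positivity) (by positivity), Real.log_pow,
      Real.log_pow] at this
    push_cast at this
    exact this
  have a2 : Real.log U ≤ (N : ℝ) * Real.log (17 / 15) + l * Real.log (15 / 2) := by
    have := Real.log_le_log (by positivity) h2
    rw [Real.log_pow, Real.log_mul (by positivity) (by positivity), Real.log_pow] at this
    have e : Real.log (2 / 15) = - Real.log (15 / 2) := by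
      rw [← Real.log_inv]; norm_num
    rw [e] at this
    linarith
  have l0 : (0.6931 : ℝ) < Real.log 2 := by linarith [Real.log_two_gt_d9]
  have l1 : Real.log 2 < (0.6932 : ℝ) := by linarith [Real.log_two_lt_d9]
  have b1 := log_three_ge
  have b2 := log_a_le
  have b3 := log_b_le
  have b4 := log_fac_le n
  have b5 := log_n_le n hn
  by_contra hc
  push Not at hc
  have hc' : 17 * (l : ℝ) < (n : ℝ) ^ 2 := by exact_mod_cast hc
  have hN0 : (0 : ℝ) ≤ N := Nat.cast_nonneg N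
  have hl0 : (0 : ℝ) ≤ l := Nat.cast_nonneg l
  generalize Real.log 3 = t3 at *
  generalize Real.log (17 / 15) = ta at *
  generalize Real.log (15 / 2) = tb at *
  generalize Real.log (n.factorial : ℝ) = tf at *
  generalize Real.log U = tU at *
  generalize Real.log (n : ℝ) = tn at *
  generalize Real.log 2 = t2 at *
  have c1 : (N : ℝ) * (1.58 * t2) ≤ N * t3 := mul_le_mul_of_nonneg_left b1 hN0
  have c2 : (N : ℝ) * ta ≤ N * (0.181 * t2) := mul_le_mul_of_nonneg_left b2 hN0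
  have c3 : (l : ℝ) * tb ≤ l * (2.907 * t2) := mul_le_mul_of_nonneg_left b3 hl0
  have c4 : (n : ℝ) * tn ≤ n * (13 + (n : ℝ) / 10 ^ 6) :=
    mul_le_mul_of_nonneg_left b5 (Nat.cast_nonneg n)
  -- collect
  have d1 : (N : ℝ) * (1.037 * t2) ≤ 2 * ((n : ℝ) * (13 + (n : ℝ) / 10 ^ 6)) +
      l * (8.721 * t2) := by
    nlinarith
  have d2 : (l : ℝ) * (8.721 * t2) ≤ (n : ℝ) ^ 2 * (0.51301 * t2) := by
    have : (l : ℝ) * 17 * (0.513 * t2) ≤ (n : ℝ) ^ 2 * (0.51301 * t2) := by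
      have e1 : (l : ℝ) * 17 * (0.513 * t2) ≤ (n : ℝ) ^ 2 * (0.513 * t2) := by
        apply mul_le_mul_of_nonneg_right _ (by linarith)
        linarith
      have e2 : (n : ℝ) ^ 2 * (0.513 * t2) ≤ (n : ℝ) ^ 2 * (0.51301 * t2) := by
        apply mul_le_mul_of_nonneg_left _ (by positivity)
        linarith
      exact e1.trans e2
    calc (l : ℝ) * (8.721 * t2) = (l : ℝ) * 17 * (0.513 * t2) := by ring
      _ ≤ _ := this
  have d3 : (N : ℝ) * (1.037 * t2) = ((n : ℝ) * (n - 1)) * (0.5185 * t2) := by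
    rw [← hN]; ring
  rw [d3] at d1
  have d4 : ((n : ℝ) * (n - 1)) * (0.5185 * t2) - (n : ℝ) ^ 2 * (0.51301 * t2) =
      (n : ℝ) ^ 2 * (0.00549 * t2) - n * (0.5185 * t2) := by ring
  have d5 : (n : ℝ) ^ 2 * (0.00549 * 0.6931) ≤ (n : ℝ) ^ 2 * (0.00549 * t2) := by
    apply mul_le_mul_of_nonneg_left _ (by positivity)
    linarith
  have d6 : (n : ℝ) * (0.5185 * t2) ≤ n * (0.5185 * 0.6932) := by
    apply mul_le_mul_of_nonneg_left _ (Nat.cast_nonneg n)
    linarith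
  nlinarith

lemma num_up (n l : ℕ) (hn : 10 ^ 6 ≤ n) (U : ℝ)
    (h1 : (2 : ℝ) ^ l ≤ (n.factorial : ℝ) * U)
    (h2 : U ≤ 2 ^ (140 * n + 100) * (1639 / 1000 : ℝ) ^ (n * (n - 1) / 2)) :
    1000 * l ≤ 357 * n ^ 2 := by
  have hn' : (10 : ℝ) ^ 6 ≤ n := by exact_mod_cast hn
  have hn1 : 1 ≤ n := le_trans (by norm_num) hn
  have hN := half_cast n
  obtain ⟨N, hNN⟩ : ∃ N, N = n * (n - 1) / 2 := ⟨_, rfl⟩
  rw [← hNN] at h2 hN
  have hf : (0 : ℝ) < n.factorial := by exact_mod_cast Nat.factorial_pos n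
  have h3 : (2 : ℝ) ^ l ≤ (n.factorial : ℝ) * (2 ^ (140 * n + 100) * (1639 / 1000 : ℝ) ^ N) :=
    h1.trans (mul_le_mul_of_nonneg_left h2 hf.le)
  have a1 : (l : ℝ) * Real.log 2 ≤ Real.log (n.factorial : ℝ) + ((140 * n + 100) * Real.log 2 +
      N * Real.log (1639 / 1000)) := by
    have := Real.log_le_log (by positivity) h3
    rw [Real.log_pow, Real.log_mul (by positivity) (by positivity),
      Real.log_mul (by positivity) (by positivity), Real.log_pow, Real.log_pow] at this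
    push_cast at this
    exact this
  have l0 : (0.6931 : ℝ) < Real.log 2 := by linarith [Real.log_two_gt_d9]
  have b1 := log_c_le
  have b4 := log_fac_le n
  have b5 := log_n_le n hn
  have hN0 : (0 : ℝ) ≤ N := Nat.cast_nonneg N
  generalize Real.log (1639 / 1000) = tc at *
  generalize Real.log (n.factorial : ℝ) = tf at *
  generalize Real.log (n : ℝ) = tn at *
  generalize Real.log 2 = t2 at *
  have c1 : (N : ℝ) * tc ≤ N * (0.713 * t2) := mul_le_mul_of_nonneg_left b1 hN0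
  have c4 : (n : ℝ) * tn ≤ n * (13 + (n : ℝ) / 10 ^ 6) :=
    mul_le_mul_of_nonneg_left b5 (Nat.cast_nonneg n)
  have c5 : (n : ℝ) * (13 + (n : ℝ) / 10 ^ 6) ≤ (n * (13 + (n : ℝ) / 10 ^ 6) * 1.45) * t2 := by
    have e1 : (0 : ℝ) ≤ n * (13 + (n : ℝ) / 10 ^ 6) := by positivity
    nlinarith
  have d1 : (l : ℝ) * t2 ≤ ((n * (13 + (n : ℝ) / 10 ^ 6) * 1.45) + (140 * n + 100) +
      N * 0.713) * t2 := by
    nlinarith
  have d2 : (l : ℝ) ≤ (n * (13 + (n : ℝ) / 10 ^ 6) * 1.45) + (140 * n + 100) + N * 0.713 :=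
    le_of_mul_le_mul_right d1 (by linarith)
  have d3 : (N : ℝ) * 0.713 = ((n : ℝ) * (n - 1)) * 0.3565 := by rw [← hN]; ring
  rw [d3] at d2
  have d4 : (1000 : ℝ) * l ≤ 357 * (n : ℝ) ^ 2 := by nlinarith
  exact_mod_cast d4

end Pool.Agent.helper58.Far
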