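import Pool.Agent.helper58.Far.Maj

/-!
# The exact identity of Macdonald for blocks with full rows

`A x = dn x l m ^ p * sch x l m` is a one-parameter group: truncate the generators (`u j = 0` for
`j < p`, `u j = lam (j - p + m)` otherwise), then `A x = schx u x (l + p) 0`.  The coefficient of `t`
in `A t * A 1 = A (1 + t)` gives the identity.
-/

set_option autoImplicit false

namespace Pool.Agent.helper58.Far

open Equiv Finset Polynomial Pool.Agent.helper54.Schub Pool.Agent.helper54.Far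

section trunc

variable {R : Type*} [Ring R] [Algebra ℚ R]

/-- truncated and shifted generators -/
def tr (v : ℕ → R) (p j : ℕ) : R := if j < p then 0 else v (j - p)

lemma tr_add (v : ℕ → R) (p q : ℕ) : tr v p (p + q) = v q := by
  unfold tr
  rw [if_neg (by omega), Nat.add_sub_cancel_left]

lemma nilCox_shift {v : ℕ → R} (hv : NilCox v) (m : ℕ) : NilCox fun i => v (i + m) where
  sq i := hv.sq _
  comm i j h := hv.comm _ _ (by omega)
  braid i := by
    have := hv.braid (i + m)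
    rwa [show i + m + 1 = i + 1 + m by ring] at this

lemma nilCox_tr {v : ℕ → R} (hv : NilCox v) (p : ℕ) : NilCox (tr v p) where
  sq i := by
    unfold tr
    split_ifs
    · rw [zero_mul]
    · exact hv.sq _
  comm i j h := by
    unfold tr
    split_ifs
    · rw [zero_mul]
    · rw [zero_mul, mul_zero]
    · rw [zero_mul, mul_zero]
    · exact hv.comm _ _ (by omega)
  braid i := by
    unfold tr
    split_ifs with h1 h2
    · simp
    · simp
    · omega
    · have := hv.braid (i - p)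
      rwa [show i - p + 1 = i + 1 - p by omega] at this

lemma dn_zero_var' (u : ℕ → R) : ∀ (l p : ℕ), dn u (0 : ℚ) l p = 1
  | 0, _ => rfl
  | (l + 1), p => by rw [dn_succ, dn_zero_var' u l (p + 1), fac, zero_smul, add_zero, one_mul]

lemma schx_zero_var' (u : ℕ → R) : ∀ (l p : ℕ), schx u (0 : ℚ) l p = 1
  | 0, _ => rfl
  | (l + 1), p => by rw [schx_succ, dn_zero_var', schx_zero_var' u l (p + 1), one_mul]

/-- the group law -/
lemma schx_mul_schx {u : ℕ → R} (hu : NilCox u) (x y : ℚ) (l p : ℕ) :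
    schx u y l p * schx u x l p = schx u (x + y) l p := by
  have h1 : srv u y l p = schx u y l p := by
    have := srv_mul_schx (K := ℚ) hu 0 y l p
    rwa [schx_zero_var', mul_one, zero_add] at this
  rw [← h1, srv_mul_schx hu x y l p]

lemma dn_shift (v : ℕ → R) (x : ℚ) (m : ℕ) : ∀ (l q : ℕ),
    dn (fun i => v (i + m)) x l q = dn v x l (q + m)
  | 0, q => rfl
  | (l + 1), q => by
    rw [dn_succ, dn_succ, dn_shift v x m l (q + 1), show q + 1 + m = q + m + 1 by ring]
    rfl

lemma schx_shift (v : ℕ → R) (x : ℚ) (m : ℕ) : ∀ (l q : ℕ),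
    schx (fun i => v (i + m)) x l q = schx v x l (q + m)
  | 0, q => rfl
  | (l + 1), q => by
    rw [schx_succ, schx_succ, dn_shift, schx_shift v x m l (q + 1),
      show q + 1 + m = q + m + 1 by ring]

lemma dn_tr (v : ℕ → R) (x : ℚ) (p : ℕ) : ∀ (l q : ℕ), dn (tr v p) x l (p + q) = dn v x l q
  | 0, q => rfl
  | (l + 1), q => by
    rw [dn_succ, dn_succ, show p + q + 1 = p + (q + 1) by ring, dn_tr v x p l (q + 1), fac, fac,
      tr_add]

lemma schx_tr (v : ℕ → R) (x : ℚ) (p : ℕ) : ∀ (l q : ℕ),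
    schx (tr v p) x l (p + q) = schx v x l q
  | 0, q => rfl
  | (l + 1), q => by
    rw [schx_succ, schx_succ, dn_tr, show p + q + 1 = p + (q + 1) by ring,
      schx_tr v x p l (q + 1)]

lemma dn_tr_low (v : ℕ → R) (x : ℚ) (p l : ℕ) : ∀ k, k ≤ p →
    dn (tr v p) x (l + k) (p - k) = dn v x l 0
  | 0, _ => by
    have := dn_tr v x p l 0
    simpa using this
  | k + 1, hk => by
    have ih := dn_tr_low v x p l k (by omega)
    rw [← add_assoc, dn_succ, show p - (k + 1) + 1 = p - k by omega, ih, fac]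
    have : tr v p (p - (k + 1)) = 0 := by
      unfold tr
      rw [if_pos (by omega)]
    rw [this, smul_zero, add_zero, mul_one]

lemma schx_tr_low (v : ℕ → R) (x : ℚ) (p l : ℕ) : ∀ k, k ≤ p →
    schx (tr v p) x (l + k) (p - k) = dn v x l 0 ^ k * schx v x l 0
  | 0, _ => by
    have := schx_tr v x p l 0
    simpa using this
  | k + 1, hk => by
    have ih := schx_tr_low v x p l k (by omega)
    rw [← add_assoc, schx_succ, show p - (k + 1) + 1 = p - k by omega, ih, add_assoc,
      dn_tr_low v x p l (k + 1) hk, pow_succ', mul_assoc]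

/-- the one-parameter group -/
def AA (v : ℕ → R) (p l m : ℕ) (x : ℚ) : R := dn v x l m ^ p * schx v x l m

lemma AA_eq (v : ℕ → R) (p l m : ℕ) (x : ℚ) :
    AA v p l m x = schx (tr (fun i => v (i + m)) p) x (l + p) 0 := by
  have h1 := schx_tr_low (fun i => v (i + m)) x p l p le_rfl
  rw [Nat.sub_self] at h1
  rw [h1, dn_shift, schx_shift, zero_add]
  rfl

lemma AA_mul {v : ℕ → R} (hv : NilCox v) (p l m : ℕ) (x y : ℚ) :
    AA v p l m y * AA v p l m x = AA v p l m (x + y) := by
  rw [AA_eq, AA_eq, AA_eq]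
  exact schx_mul_schx (nilCox_tr (nilCox_shift hv m) p) x y _ _

end trunc

/-- the word of `AA` -/
def wA (l m : ℕ) : ℕ → List ℕ
  | 0 => wsc l m
  | p + 1 => wdn l m ++ wA l m p

lemma wp_wA (x : ℚ) (l m : ℕ) : ∀ p, wp (lam ℚ) x (wA l m p) = AA (lam ℚ) p l m x
  | 0 => by rw [wA, wp_wsc, AA, pow_zero, one_mul]
  | p + 1 => by
    rw [wA, wp_append, wp_wdn, wp_wA x l m p, AA, AA, pow_succ', mul_assoc]

lemma mem_wA (l m n : ℕ) (h : m + l < n) : ∀ p, ∀ j ∈ wA l m p, j + 1 < n
  | 0, j, hj => by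
    have := mem_wsc l m j hj
    omega
  | p + 1, j, hj => by
    rw [wA, List.mem_append] at hj
    rcases hj with hj | hj
    · have := mem_wdn l m j hj
      omega
    · exact mem_wA l m n h p j hj

lemma sum_wdn (F : ℕ → ℚ) : ∀ l m, ((wdn l m).map F).sum = ∑ i ∈ range l, F (m + i)
  | 0, _ => rfl
  | (l + 1), m => by
    rw [wdn, List.map_append, List.sum_append, sum_wdn F l (m + 1), sum_range_succ']
    congr 1
    · apply sum_congr rfl
      intro i _
      rw [show m + 1 + i = m + (i + 1) by ring]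
    · simp

lemma sum_wsc (F : ℕ → ℚ) : ∀ l m, ((wsc l m).map F).sum =
    ∑ i ∈ range l, ((i : ℚ) + 1) * F (m + i)
  | 0, _ => rfl
  | (l + 1), m => by
    rw [wsc, List.map_append, List.sum_append, sum_wdn, sum_wsc F l (m + 1), sum_range_succ',
      sum_range_succ' (fun i => ((i : ℚ) + 1) * F (m + i)), add_right_comm, ← sum_add_distrib]
    congr 1
    · apply sum_congr rfl
      intro i _
      rw [show m + 1 + i = m + (i + 1) by ring]
      push_cast
      ring
    · simp

lemma sum_wA (F : ℕ → ℚ) (l m : ℕ) : ∀ p, ((wA l m p).map F).sum =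
    ∑ i ∈ range l, ((p : ℚ) + i + 1) * F (m + i)
  | 0 => by
    rw [wA, sum_wsc]
    apply sum_congr rfl
    intro i _
    push_cast
    ring
  | p + 1 => by
    rw [wA, List.map_append, List.sum_append, sum_wdn, sum_wA F l m p, ← sum_add_distrib]
    apply sum_congr rfl
    intro i _
    push_cast
    ring

/-- the polynomial version of `wp` -/
noncomputable def wpP (f : Perm ℕ → ℚ) : List ℕ → Perm ℕ → ℚ[X]
  | [], w => C (f w)
  | (j :: L), w => wpP f L w + X * (if w⁻¹ (j + 1) < w⁻¹ j then wpP f L (sj j * w) else 0)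

lemma eval_wpP (f : Perm ℕ → ℚ) (t : ℚ) : ∀ (L : List ℕ) (w : Perm ℕ),
    (wpP f L w).eval t = wp (lam ℚ) t L f w
  | [], w => by rw [wpP, eval_C]; rfl
  | (j :: L), w => by
    rw [wpP, wp_cons, Module.End.mul_apply, fac_apply, Pi.add_apply, Pi.smul_apply, lam_apply,
      smul_eq_mul, eval_add, eval_mul, eval_X, eval_wpP f t L w]
    split_ifs
    · rw [eval_wpP f t L (sj j * w)]
    · rw [eval_zero]

lemma coeff_zero_wpP (f : Perm ℕ → ℚ) : ∀ (L : List ℕ) (w : Perm ℕ),
    (wpP f L w).coeff 0 = f w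
  | [], w => by rw [wpP, coeff_C_zero]
  | (j :: L), w => by
    rw [wpP, coeff_add, coeff_zero_wpP f L w, mul_coeff_zero, coeff_X_zero, zero_mul, add_zero]

lemma coeff_one_wpP (f : Perm ℕ → ℚ) : ∀ (L : List ℕ) (w : Perm ℕ),
    (wpP f L w).coeff 1 =
      (L.map fun j => if w⁻¹ (j + 1) < w⁻¹ j then f (sj j * w) else 0).sum
  | [], w => by rw [wpP, coeff_C_succ]; rfl
  | (j :: L), w => by
    rw [wpP, coeff_add, coeff_one_wpP f L w, coeff_X_mul, List.map_cons, List.sum_cons]
    split_ifs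
    · rw [coeff_zero_wpP]; ring
    · rw [coeff_zero]; ring

/-- **The identity of Macdonald** for `1_p × τ`, the generators of `τ` in `[m, m + l)`. -/
theorem macdonald (p l m n : ℕ) (h : m + l < n) (τ : Perm ℕ) :
    (invN n τ : ℚ) * cf τ (dn (lam ℚ) (1 : ℚ) l m ^ p * sch ℚ (lam ℚ) l m) =
      ∑ i ∈ range l, ((p : ℚ) + i + 1) * (if τ⁻¹ (m + i + 1) < τ⁻¹ (m + i) then
        cf (sj (m + i) * τ) (dn (lam ℚ) (1 : ℚ) l m ^ p * sch ℚ (lam ℚ) l m) else 0) := by
  obtain ⟨L, hL⟩ : ∃ L, L = wA l m p := ⟨_, rfl⟩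
  have hmem : ∀ j ∈ L, j + 1 < n := by rw [hL]; exact mem_wA l m n h p
  have hA : dn (lam ℚ) (1 : ℚ) l m ^ p * sch ℚ (lam ℚ) l m = wp (lam ℚ) (1 : ℚ) L := by
    rw [hL, wp_wA, AA, sch_eq_schx]
  rw [hA]
  obtain ⟨f, hf⟩ : ∃ f : Perm ℕ → ℚ, f = wp (lam ℚ) (1 : ℚ) L (del ℚ) := ⟨_, rfl⟩
  have hcf : ∀ w, cf w (wp (lam ℚ) (1 : ℚ) L) = f w := fun w => by rw [hf]; rfl
  have key : wpP f L τ = (1 + X) ^ invN n τ * C (f τ) := by
    apply Polynomial.funext
    intro t
    rw [eval_wpP, eval_mul, eval_pow, eval_add, eval_one, eval_X, eval_C, ← hcf τ,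
      ← cf_wp_homog n (1 + t) L hmem τ, hf, hL, wp_wA, wp_wA, wp_wA,
      ← AA_mul nilCox_lam p l m 1 t]
    rfl
  have h1 := congrArg (fun q : ℚ[X] => q.coeff 1) key
  simp only [coeff_mul_C] at h1
  rw [coeff_one_wpP, coeff_one_add_X_pow, Nat.choose_one_right] at h1
  rw [hcf τ, ← h1, hL, sum_wA]
  apply sum_congr rfl
  intro i _
  rw [← hL, hcf]

end Pool.Agent.helper58.Far
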