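import Mathlib

/-!
# Inversions and descents of permutations of `Fin n`
-/

set_option autoImplicit false

namespace Pool.Agent.helper58.Far

open Equiv Finset

/-- the number of inversions of `w` : pairs `i < j` of positions with `w j < w i` -/
def inversions {n : ℕ} (w : Perm (Fin n)) : ℕ :=
  ((univ : Finset (Fin n × Fin n)).filter fun p => p.1 < p.2 ∧ w p.2 < w p.1).card

/-- the number of descents of `w` : pairs of neighbouring positions `i`, `j = i + 1` with
`w j < w i` -/
def descents {n : ℕ} (w : Perm (Fin n)) : ℕ :=
  ((univ : Finset (Fin n × Fin n)).filter fun p => (p.1 : ℕ) + 1 = p.2 ∧ w p.2 < w p.1).card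

end Pool.Agent.helper58.Far
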