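import Pool.Agent.helper58.Far.Maj
import Pool.Agent.helper58.Far.WinDefs
import Pool.Agent.helper54.Upb.Main5
import Pool.Agent.helper58.Far.Num

/-!
# The window theorem for maximizers
-/

set_option autoImplicit false

namespace Pool.Agent.helper58.Far

open Equiv Finset Pool.Agent.helper54.Schub Pool.Agent.helper54.Far

lemma inversions_eq {n : ℕ} (w : Perm (Fin n)) : inversions w = invN n (iot w) := by
  unfold inversions invN
  refine Finset.card_bij (fun p _ => ((p.1 : ℕ), (p.2 : ℕ))) ?_ ?_ ?_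
  · rintro ⟨a, b⟩ hp
    simp only [mem_filter, mem_univ, true_and] at hp
    obtain ⟨h1, h2⟩ := hp
    rw [mem_invS]
    refine ⟨a.2, b.2, h1, ?_⟩
    simp only
    rw [iot_apply, iot_apply]
    exact h2
  · rintro ⟨a, b⟩ _ ⟨c, d⟩ _ h
    simp only [Prod.mk.injEq] at h
    rw [Prod.mk.injEq]
    exact ⟨Fin.ext h.1, Fin.ext h.2⟩
  · rintro ⟨a, b⟩ hp
    rw [mem_invS] at hp
    obtain ⟨h1, h2, h3, h4⟩ := hp
    simp only at h1 h2 h3 h4
    refine ⟨(⟨a, h1⟩, ⟨b, h2⟩), ?_, rfl⟩
    simp only [mem_filter, mem_univ, true_and]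
    refine ⟨h3, ?_⟩
    have e1 := iot_apply w ⟨a, h1⟩
    have e2 := iot_apply w ⟨b, h2⟩
    simp only at e1 e2
    rw [e1, e2] at h4
    exact h4

lemma dcount_le_descents {n : ℕ} (w : Perm (Fin n)) :
    dcount (iot w) (wsc (n - 1) 0) ≤ n * descents w⁻¹ := by
  unfold dcount
  rw [countP_wsc]
  have h1 : ∑ i ∈ range (n - 1), (if decide ((iot w)⁻¹ (0 + i + 1) < (iot w)⁻¹ (0 + i)) = true
      then i + 1 else 0) ≤ ∑ i ∈ range (n - 1), (if (iot w)⁻¹ (i + 1) < (iot w)⁻¹ i
      then n else 0) := by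
    apply sum_le_sum
    intro i hi
    rw [mem_range] at hi
    simp only [zero_add, decide_eq_true_eq]
    split_ifs <;> omega
  refine h1.trans ?_
  rw [← sum_filter, sum_const, smul_eq_mul, mul_comm]
  apply Nat.mul_le_mul_left
  have h2 : (range (n - 1)).filter (fun i => (iot w)⁻¹ (i + 1) < (iot w)⁻¹ i) ⊆
      ((univ : Finset (Fin n × Fin n)).filter
        fun p => (p.1 : ℕ) + 1 = p.2 ∧ w⁻¹ p.2 < w⁻¹ p.1).image (fun p => (p.1 : ℕ)) := by
    intro i hi
    rw [mem_filter, mem_range] at hi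
    rw [mem_image]
    refine ⟨(⟨i, by omega⟩, ⟨i + 1, by omega⟩), ?_, rfl⟩
    simp only [mem_filter, mem_univ, true_and]
    have e1 := iot_apply w⁻¹ ⟨i, by omega⟩
    have e2 := iot_apply w⁻¹ ⟨i + 1, by omega⟩
    rw [iot_inv] at e1 e2
    simp only at e1 e2
    have h3 := hi.2
    rw [e1, e2] at h3
    exact h3
  exact (card_le_card h2).trans card_image_le

lemma val_one (n : ℕ) : val n 1 = 1 := by
  have h1 := cf_wp_homog n 0 _ (mem_word n) 1
  have h2 : invN n 1 = 0 := by
    unfold invN
    rw [card_eq_zero, eq_empty_iff_forall_notMem]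
    rintro ⟨a, b⟩ hp
    rw [mem_invS] at hp
    simp only [Perm.coe_one, id_eq] at hp
    omega
  rw [h2, pow_zero, one_mul, ← val_eq_wp, wp_wsc, schx_zero_var, cf_one, del_one] at h1
  exact h1.symm

/-- **Window theorem.** -/
theorem window (n : ℕ) (hn : 10 ^ 6 ≤ n) (S : Perm (Fin n) → MvPolynomial (Fin n) ℤ)
    (hS : IsSchubert n S) (w : Perm (Fin n)) (hw : ∀ x : Perm (Fin n), nu S x ≤ nu S w) :
    n ^ 2 ≤ 17 * inversions w ∧ 1000 * inversions w ≤ 357 * n ^ 2 ∧
      n ≤ 17 * descents w ∧ n ≤ 17 * descents w⁻¹ := by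
  have hn1 : 1 ≤ n := le_trans (by norm_num) hn
  have hval : ∀ x : Perm (Fin n), val n (iot x) ≤ val n (iot w) := by
    intro x
    rw [← nu_eq_val hS, ← nu_eq_val hS]
    exact_mod_cast hw x
  have ew : ((val n (iot w) : ℚ) : ℝ) = ((nu S w : ℤ) : ℝ) := by
    rw [← nu_eq_val hS w]; push_cast; rfl
  have hpos : (0 : ℝ) < ((nu S w : ℤ) : ℝ) := by
    rw [← ew]
    have := lt_of_lt_of_le one_pos (one_le_val hn1 (fa_iot w))
    exact_mod_cast this
  have hlow : n ^ 2 ≤ 17 * inversions w := by
    apply num_low n _ hn _ hpos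
    · have h1 := (Rat.cast_le (K := ℝ)).2 (three_pow (val n (iot w)) hval)
      push_cast at h1
      rw [ew] at h1
      exact h1
    · have h2 := val_up n (invN n (iot w)) (iot w) 1 (fa_one n)
        (by
          have : Iv n (1 : Perm ℕ) = ∅ := by
            rw [eq_empty_iff_forall_notMem]
            rintro ⟨a, b⟩ hp
            rw [mem_Iv] at hp
            simp only [Perm.coe_one, id_eq] at hp
            omega
          rw [this]; exact empty_subset _)
        (by
          have : Iv n (1 : Perm ℕ) = ∅ := by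
            rw [eq_empty_iff_forall_notMem]
            rintro ⟨a, b⟩ hp
            rw [mem_Iv] at hp
            simp only [Perm.coe_one, id_eq] at hp
            omega
          rw [this, card_empty, zero_add]; rfl) (2 / 15) (by norm_num)
      rw [val_one, mul_one] at h2
      have h3 := (Rat.cast_le (K := ℝ)).2 h2
      push_cast at h3
      rw [ew] at h3
      rw [inversions_eq]
      have e1 : (1 : ℝ) + 2 / 15 = 17 / 15 := by norm_num
      rw [e1] at h3
      exact h3
  have hup : 1000 * inversions w ≤ 357 * n ^ 2 := by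
    apply num_up n _ hn ((nu S w : ℤ) : ℝ)
    · have h1 := (Rat.cast_le (K := ℝ)).2 (two_pow_inv hn1 w hval)
      push_cast at h1
      rw [ew] at h1
      rw [inversions_eq]
      exact h1
    · exact Pool.Agent.helper54.Upb.upper n S hS w
  have hdes : ∀ u : Perm (Fin n), (∀ x : Perm (Fin n), val n (iot x) ≤ val n (iot u)) →
      inversions u ≤ n * descents u⁻¹ := by
    intro u hu
    rw [inversions_eq]
    exact (inv_le_dcount hn1 u hu).trans (dcount_le_descents u)
  have hinvw : inversions w⁻¹ = inversions w := by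
    have hI : ∀ u : Perm (Fin n), inversions u ≤ inversions u⁻¹ := by
      intro u
      unfold inversions
      refine Finset.card_le_card_of_injOn (fun p => (u p.2, u p.1)) ?_ ?_
      · rintro ⟨a, b⟩ hp
        rw [Finset.mem_coe, mem_filter] at hp ⊢
        refine ⟨mem_univ _, hp.2.2, ?_⟩
        have e1 : u⁻¹ (u a) = a := by simp
        have e2 : u⁻¹ (u b) = b := by simp
        simp only
        rw [e1, e2]
        exact hp.2.1
      · rintro ⟨a, b⟩ _ ⟨c, d⟩ _ h
        simp only [Prod.mk.injEq] at h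
        rw [Prod.mk.injEq]
        exact ⟨u.injective h.2, u.injective h.1⟩
    have h1 := hI w
    have h2 := hI w⁻¹
    rw [inv_inv] at h2
    omega
  refine ⟨hlow, hup, ?_, ?_⟩
  · have h1 := hdes w⁻¹ (fun x => by
      rw [iot_inv, val_inv]; exact hval x)
    rw [inv_inv, hinvw] at h1
    have h2 : n * n ≤ n * (17 * descents w) := by nlinarith
    exact Nat.le_of_mul_le_mul_left h2 hn1
  · have h1 := hdes w hval
    have h2 : n * n ≤ n * (17 * descents w⁻¹) := by nlinarith
    exact Nat.le_of_mul_le_mul_left h2 hn1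

end Pool.Agent.helper58.Far
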