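import Pool.Agent.helper58.Far.Conv

/-!
# Inversions and the major index of a maximizer
-/

set_option autoImplicit false

namespace Pool.Agent.helper58.Far

open Equiv Finset Pool.Agent.helper54.Schub Pool.Agent.helper54.Far

/-- the number of letters of the word which are left descents of `w` -/
def dcount (w : Perm ℕ) (L : List ℕ) : ℕ := L.countP fun j => decide (w⁻¹ (j + 1) < w⁻¹ j)

/-- the constant of the quadratic term -/
def qc : List ℕ → ℚ
  | [] => 0
  | (_ :: L) => 2 * qc L + L.length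

lemma qc_nonneg : ∀ L : List ℕ, 0 ≤ qc L
  | [] => le_rfl
  | (_ :: L) => by
    have := qc_nonneg L
    unfold qc
    positivity

lemma dcount_le (w : Perm ℕ) (L : List ℕ) : dcount w L ≤ L.length := List.countP_le_length

/-- first order expansion -/
lemma wp_one_le {t : ℚ} (ht : 0 ≤ t) (ht1 : t ≤ 1) : ∀ (L : List ℕ) (w : Perm ℕ),
    wp (lam ℚ) t L (fun _ => 1) w ≤ 1 + t * dcount w L + t ^ 2 * qc L
  | [], w => by simp [dcount, qc]
  | (j :: L), w => by
    have h1 := wp_one_le ht ht1 L w
    have h2 := wp_one_le ht ht1 L (sj j * w)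
    have hq := qc_nonneg L
    rw [wp_cons, Module.End.mul_apply, fac_apply, Pi.add_apply, Pi.smul_apply, lam_apply,
      smul_eq_mul]
    have hd : (dcount (sj j * w) L : ℚ) ≤ L.length := by exact_mod_cast dcount_le _ L
    have e1 : dcount w (j :: L) = dcount w L + if w⁻¹ (j + 1) < w⁻¹ j then 1 else 0 := by
      unfold dcount
      rw [List.countP_cons]
      simp only [decide_eq_true_eq]
    rw [e1, qc]
    push_cast
    by_cases hc : w⁻¹ (j + 1) < w⁻¹ j
    · rw [if_pos hc, if_pos hc]
      have a1 : t * (wp (lam ℚ) t L (fun _ => 1) (sj j * w)) ≤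
          t * (1 + t * L.length + t ^ 2 * qc L) := by
        apply mul_le_mul_of_nonneg_left _ ht
        have := mul_le_mul_of_nonneg_left hd ht
        linarith
      have a2 : t * (t ^ 2 * qc L) ≤ t ^ 2 * qc L := by
        have : 0 ≤ t ^ 2 * qc L := by positivity
        calc t * (t ^ 2 * qc L) ≤ 1 * (t ^ 2 * qc L) := mul_le_mul_of_nonneg_right ht1 this
          _ = _ := one_mul _
      nlinarith
    · rw [if_neg hc, if_neg hc]
      have a1 : 0 ≤ t ^ 2 * (qc L + L.length) := by positivity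
      nlinarith

/-- monotonicity in the function, on `S_n` -/
lemma wp_le_const {n : ℕ} {t : ℚ} (ht : 0 ≤ t) {f : Perm ℕ → ℚ} {M : ℚ}
    (hM : ∀ x : Perm (Fin n), f (iot x) ≤ M) : ∀ (L : List ℕ), (∀ j ∈ L, j + 1 < n) →
      ∀ w : Perm (Fin n), wp (lam ℚ) t L f (iot w) ≤ M * wp (lam ℚ) t L (fun _ => 1) (iot w)
  | [], _, w => by simpa using hM w
  | (j :: L), hL, w => by
    have hj : j + 1 < n := hL j (by simp)
    have ih := wp_le_const ht hM L (fun i hi => hL i (by simp [hi]))
    have e0 : sj j * iot w = iot (sF j hj * w) := by rw [iot_mul, iot_sF]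
    rw [wp_cons, Module.End.mul_apply, fac_apply, Pi.add_apply, Pi.smul_apply, lam_apply,
      smul_eq_mul, Module.End.mul_apply, fac_apply, Pi.add_apply, Pi.smul_apply, lam_apply,
      smul_eq_mul, e0, mul_add]
    apply add_le_add (ih w)
    split_ifs
    · have := mul_le_mul_of_nonneg_left (ih (sF j hj * w)) ht
      calc _ ≤ _ := this
        _ = _ := by ring
    · simp

/-- **Second stationarity inequality** for words. -/
theorem inv_le_dcount {n : ℕ} (hn : 1 ≤ n) (w : Perm (Fin n))
    (hw : ∀ x : Perm (Fin n), val n (iot x) ≤ val n (iot w)) :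
    invN n (iot w) ≤ dcount (iot w) (wsc (n - 1) 0) := by
  obtain ⟨L, hL⟩ : ∃ L, L = wsc (n - 1) 0 := ⟨_, rfl⟩
  have hmem : ∀ j ∈ L, j + 1 < n := by rw [hL]; exact mem_word n
  have hpos : 0 < val n (iot w) := lt_of_lt_of_le one_pos (one_le_val hn (fa_iot w))
  have key : ∀ t : ℚ, 0 ≤ t → t ≤ 1 → (1 : ℚ) + invN n (iot w) * t ≤
      1 + t * dcount (iot w) L + t ^ 2 * qc L := by
    intro t ht ht1
    have h1 := cf_wp_homog n (1 + t) L hmem (iot w)
    have h2 : cf (iot w) (wp (lam ℚ) (1 + t) L) =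
        wp (lam ℚ) t L (wp (lam ℚ) (1 : ℚ) L (del ℚ)) (iot w) := by
      rw [hL, ← op_add]; rfl
    have h3 := wp_le_const (n := n) ht (f := wp (lam ℚ) (1 : ℚ) L (del ℚ)) (M := val n (iot w))
      (fun x => by
        have := hw x
        rw [val_eq_wp n (iot x), ← hL] at this
        exact this) L hmem w
    rw [← h2, h1] at h3
    have h4 : cf (iot w) (wp (lam ℚ) (1 : ℚ) L) = val n (iot w) := by rw [val_eq_wp, hL]
    rw [h4, mul_comm] at h3
    have h5 := le_of_mul_le_mul_left h3 hpos
    have h6 : (1 : ℚ) + invN n (iot w) * t ≤ (1 + t) ^ invN n (iot w) :=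
      one_add_mul_le_pow (by linarith) _
    exact h6.trans (h5.trans (wp_one_le ht ht1 L (iot w)))
  by_contra hc
  push Not at hc
  rw [← hL] at hc
  have hq := qc_nonneg L
  have h1 := key (1 / (qc L + 1)) (by positivity) (by
    rw [div_le_one (by positivity)]; linarith)
  have h2 : ((dcount (iot w) L : ℕ) : ℚ) + 1 ≤ invN n (iot w) := by exact_mod_cast hc
  have h3 : (0 : ℚ) < 1 / (qc L + 1) := by positivity
  have h4 : (1 / (qc L + 1)) ^ 2 * qc L < 1 / (qc L + 1) := by
    have : (1 / (qc L + 1)) ^ 2 * qc L = 1 / (qc L + 1) * (qc L / (qc L + 1)) := by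
      field_simp
    rw [this]
    have h5 : qc L / (qc L + 1) < 1 := by rw [div_lt_one (by positivity)]; linarith
    calc 1 / (qc L + 1) * (qc L / (qc L + 1)) < 1 / (qc L + 1) * 1 :=
          mul_lt_mul_of_pos_left h5 h3
      _ = _ := mul_one _
  have h6 := mul_le_mul_of_nonneg_right h2 h3.le
  linarith

lemma countP_wdn (P : ℕ → Bool) : ∀ l p, (wdn l p).countP P = ∑ i ∈ range l, if P (p + i) then 1 else 0
  | 0, _ => rfl
  | (l + 1), p => by
    rw [wdn, List.countP_append, countP_wdn P l (p + 1), sum_range_succ']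
    congr 1
    · apply sum_congr rfl
      intro i _
      rw [show p + 1 + i = p + (i + 1) by ring]
    · simp [List.countP_cons]

lemma countP_wsc (P : ℕ → Bool) : ∀ l p, (wsc l p).countP P =
    ∑ i ∈ range l, if P (p + i) then i + 1 else 0
  | 0, _ => rfl
  | (l + 1), p => by
    rw [wsc, List.countP_append, countP_wdn, countP_wsc P l (p + 1), sum_range_succ',
      sum_range_succ' (fun i => if P (p + i) = true then i + 1 else 0)]
    rw [add_right_comm, ← sum_add_distrib]
    congr 1
    apply sum_congr rfl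
    intro i _
    rw [show p + 1 + i = p + (i + 1) by ring]
    split_ifs <;> ring

lemma reverse_wdn : ∀ l p, (wdn l p).reverse = wup l p
  | 0, _ => rfl
  | (l + 1), p => by
    rw [wdn, List.reverse_append, reverse_wdn l (p + 1)]; rfl

lemma reverse_wsc : ∀ l p, (wsc l p).reverse = wsr l p
  | 0, _ => rfl
  | (l + 1), p => by
    rw [wsc, List.reverse_append, reverse_wsc l (p + 1), reverse_wdn]; rfl

lemma del_inv (w : Perm ℕ) : del ℚ w⁻¹ = del ℚ w := by
  by_cases h : w = 1
  · rw [h, inv_one]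
  · rw [del_ne h, del_ne (by rwa [ne_eq, inv_eq_one])]

lemma cf_inv (y : ℚ) : ∀ (L : List ℕ) (w : Perm ℕ),
    cf w⁻¹ (wp (lam ℚ) y L) = cf w (wp (lam ℚ) y L.reverse)
  | [], w => by
    rw [List.reverse_nil, wp_nil, cf_one, cf_one, del_inv]
  | (j :: L), w => by
    rw [List.reverse_cons, cf_wp_snoc, wp_cons, fac, add_mul, one_mul, smul_mul_assoc, cf_add,
      cf_smul, cf_lam_mul, inv_inv, cf_inv y L w]
    have e : sj j * w⁻¹ = (w * sj j)⁻¹ := by rw [mul_inv_rev, sj_inv]
    rw [e, cf_inv y L (w * sj j)]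

/-- `ν` is invariant under inversion of permutations -/
theorem val_inv (n : ℕ) (w : Perm ℕ) : val n w⁻¹ = val n w := by
  rw [val_eq_wp, val_eq_wp, cf_inv, reverse_wsc, wp_wsr, srv_eq_schx, wp_wsc]

end Pool.Agent.helper58.Far
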