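import Pool.Agent.helper58.Far.Flat

/-!
# The comparison in exponential form
-/

set_option autoImplicit false

namespace Pool.Agent.helper58.Far

open Equiv Finset Pool.Agent.helper54.Schub Pool.Agent.helper54.Far

lemma card_Dis_le (n : ℕ) (w v : Perm ℕ) : (Dis n w v).card ≤ n * (n - 1) / 2 := by
  have h1 : Dis n w v ⊆ (range n ×ˢ range n).filter fun p => p.1 < p.2 := by
    intro p hp
    unfold Dis at hp
    rw [mem_filter] at hp ⊢
    exact ⟨hp.1, hp.2.1⟩
  refine (card_le_card h1).trans ?_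
  have h2 : ((range n ×ˢ range n).filter fun p : ℕ × ℕ => p.1 < p.2).card =
      ∑ b ∈ range n, b := by
    rw [card_filter, sum_product_right]
    apply sum_congr rfl
    intro b hb
    rw [mem_range] at hb
    rw [← card_filter]
    have : (range n).filter (fun a => a < b) = range b := by
      ext x; simp only [mem_filter, mem_range]; omega
    rw [this, card_range]
  rw [h2, sum_range_id]

lemma le_of_Dis_zero {n : ℕ} (hn : 1 ≤ n) (w v : Perm (Fin n))
    (h : (Dis n (iot w) (iot v)).card = 0) : val n (iot w) ≤ val n (iot v) := by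
  rw [card_Dis, Nat.add_eq_zero_iff, card_eq_zero, card_eq_zero, sdiff_eq_empty_iff_subset,
    sdiff_eq_empty_iff_subset] at h
  have h1 := val_down n 0 hn (iot v) (iot w) (fa_iot v) (fa_iot w) h.1
    (by rw [subset_antisymm h.1 h.2]; rfl) 0 le_rfl zero_le_one
  simpa using h1

/-- **Comparison with a layered permutation.** -/
theorem cmp_exp {n : ℕ} (hn : 1 ≤ n) (w v : Perm (Fin n)) (hv : IsLayered v) :
    ((val n (iot w) : ℚ) : ℝ) ≤
      Real.exp (((Dis n (iot w) (iot v)).card : ℝ) *
        (2 + Real.log ((n : ℝ) ^ 2 / ((Dis n (iot w) (iot v)).card : ℝ)))) *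
        ((val n (iot v) : ℚ) : ℝ) := by
  obtain ⟨D, hD⟩ : ∃ D, D = (Dis n (iot w) (iot v)).card := ⟨_, rfl⟩
  have hc := card_Dis_le n (iot w) (iot v)
  have hcmp := compare hn w v hv
  have h0 := le_of_Dis_zero hn w v
  rw [← hD] at hc hcmp h0 ⊢
  rcases Nat.eq_zero_or_pos D with hz | hz
  · rw [hz]
    simp only [Nat.cast_zero, zero_mul, Real.exp_zero, one_mul]
    exact_mod_cast h0 hz
  · obtain ⟨N, hN⟩ : ∃ N, N = n * (n - 1) / 2 := ⟨_, rfl⟩
    rw [← hN] at hc hcmp
    have hN2 : 2 * N ≤ n ^ 2 := by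
      have h1 : 2 * N ≤ n * (n - 1) := by rw [hN]; exact Nat.mul_div_le _ _
      calc 2 * N ≤ n * (n - 1) := h1
        _ ≤ n * n := Nat.mul_le_mul_left _ (Nat.sub_le _ _)
        _ = n ^ 2 := by ring
    have hn2 : (0 : ℝ) < (n : ℝ) ^ 2 := by
      have : (0 : ℝ) < n := by exact_mod_cast hn
      positivity
    have hDr : (0 : ℝ) < D := by exact_mod_cast hz
    have h1 := hcmp ((D : ℚ) / (n : ℚ) ^ 2) (by
        have : (0 : ℚ) < n := by exact_mod_cast hn
        have : (0 : ℚ) < D := by exact_mod_cast hz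
        positivity) (by
        rw [div_le_one (by have : (0 : ℚ) < n := by exact_mod_cast hn
                           positivity)]
        exact_mod_cast (by omega : D ≤ n ^ 2))
    obtain ⟨y, hy⟩ : ∃ y : ℝ, y = (D : ℝ) / (n : ℝ) ^ 2 := ⟨_, rfl⟩
    have h2 : (1 - y) ^ N * y ^ D * ((val n (iot w) : ℚ) : ℝ) ≤
        (1 + y) ^ N * ((val n (iot v) : ℚ) : ℝ) := by
      have h3 := (Rat.cast_le (K := ℝ)).2 h1
      push_cast at h3
      rw [hy]; exact h3
    have hy0 : 0 < y := by rw [hy]; positivity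
    have hyn : y * (n : ℝ) ^ 2 = D := by rw [hy]; field_simp
    have hy2 : 2 * y ≤ 1 := by
      have h3 : (2 : ℝ) * D ≤ (n : ℝ) ^ 2 := by exact_mod_cast (by omega : 2 * D ≤ n ^ 2)
      by_contra hc
      push Not at hc
      have : 1 * (n : ℝ) ^ 2 < 2 * y * (n : ℝ) ^ 2 := mul_lt_mul_of_pos_right hc hn2
      nlinarith
    have hyN : 2 * (N : ℝ) * y ≤ D := by
      have h3 : 2 * (N : ℝ) ≤ (n : ℝ) ^ 2 := by exact_mod_cast hN2
      nlinarith [mul_le_mul_of_nonneg_right h3 hy0.le]
    have a1 : (1 + y) ^ N ≤ Real.exp (N * y) := by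
      rw [Real.exp_nat_mul]
      apply pow_le_pow_left₀ (by linarith)
      linarith [Real.add_one_le_exp y]
    have a2 : Real.exp (-(2 * N * y)) ≤ (1 - y) ^ N := by
      have e1 : Real.exp (-(2 * N * y)) = Real.exp (-(2 * y)) ^ N := by
        rw [← Real.exp_nat_mul]; ring_nf
      rw [e1]
      apply pow_le_pow_left₀ (Real.exp_nonneg _)
      have e2 : 1 / (1 - y) ≤ Real.exp (2 * y) := by
        have e3 : 1 / (1 - y) ≤ 2 * y + 1 := by
          rw [div_le_iff₀ (by linarith)]
          nlinarith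
        linarith [Real.add_one_le_exp (2 * y)]
      rw [Real.exp_neg, inv_le_comm₀ (Real.exp_pos _) (by linarith), ← one_div]
      exact e2
    have a3 : y ^ D * Real.exp (D * Real.log ((n : ℝ) ^ 2 / D)) = 1 := by
      have e1 : Real.exp (D * Real.log ((n : ℝ) ^ 2 / D)) = ((n : ℝ) ^ 2 / D) ^ D := by
        rw [Real.exp_nat_mul, Real.exp_log (by positivity)]
      rw [e1, ← mul_pow, hy]
      have : (D : ℝ) / (n : ℝ) ^ 2 * ((n : ℝ) ^ 2 / D) = 1 := by field_simp
      rw [this, one_pow]
    have vw : 0 ≤ ((val n (iot w) : ℚ) : ℝ) := by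
      have : 0 ≤ val n (iot w) := by rw [val_eq_wp]; exact cf_wp_nonneg zero_le_one _ _
      exact_mod_cast this
    have vv : 0 ≤ ((val n (iot v) : ℚ) : ℝ) := by
      have : 0 ≤ val n (iot v) := by rw [val_eq_wp]; exact cf_wp_nonneg zero_le_one _ _
      exact_mod_cast this
    have p4 : 0 ≤ Real.exp (2 * N * y) * Real.exp (D * Real.log ((n : ℝ) ^ 2 / D)) := by positivity
    have key : ((val n (iot w) : ℚ) : ℝ) ≤
        Real.exp (2 * N * y) * Real.exp (D * Real.log ((n : ℝ) ^ 2 / D)) *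
          (Real.exp (N * y) * ((val n (iot v) : ℚ) : ℝ)) := by
      calc ((val n (iot w) : ℚ) : ℝ)
          = Real.exp (2 * N * y) * Real.exp (D * Real.log ((n : ℝ) ^ 2 / D)) *
            (Real.exp (-(2 * N * y)) * y ^ D * ((val n (iot w) : ℚ) : ℝ)) := by
            have e1 : Real.exp (2 * N * y) * Real.exp (-(2 * N * y)) = 1 := by
              rw [← Real.exp_add, add_neg_cancel, Real.exp_zero]
            calc ((val n (iot w) : ℚ) : ℝ) = (Real.exp (2 * N * y) * Real.exp (-(2 * N * y))) *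
                  (y ^ D * Real.exp (D * Real.log ((n : ℝ) ^ 2 / D))) *
                  ((val n (iot w) : ℚ) : ℝ) := by rw [e1, a3]; ring
              _ = _ := by ring
        _ ≤ Real.exp (2 * N * y) * Real.exp (D * Real.log ((n : ℝ) ^ 2 / D)) *
            ((1 - y) ^ N * y ^ D * ((val n (iot w) : ℚ) : ℝ)) := by
            apply mul_le_mul_of_nonneg_left _ p4
            apply mul_le_mul_of_nonneg_right _ vw
            exact mul_le_mul_of_nonneg_right a2 (by positivity)
        _ ≤ Real.exp (2 * N * y) * Real.exp (D * Real.log ((n : ℝ) ^ 2 / D)) *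
            ((1 + y) ^ N * ((val n (iot v) : ℚ) : ℝ)) := mul_le_mul_of_nonneg_left h2 p4
        _ ≤ _ := by
            apply mul_le_mul_of_nonneg_left _ p4
            exact mul_le_mul_of_nonneg_right a1 vv
    refine key.trans ?_
    rw [← mul_assoc]
    apply mul_le_mul_of_nonneg_right _ vv
    rw [← Real.exp_add, ← Real.exp_add]
    apply Real.exp_le_exp.2
    have : (0 : ℝ) ≤ N * y := by positivity
    linarith

end Pool.Agent.helper58.Far
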