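import Pool.Agent.helper58.Far.Exp
import Pool.Agent.helper54.Expl.Fin

/-!
# Permutations near a layered permutation have an exponentially small principal evaluation
-/

set_option autoImplicit false

namespace Pool.Agent.helper58.Far

open Equiv Finset Pool.Agent.helper54.Schub Pool.Agent.helper54.Far

/-- the number of pairs `i < j` of positions which are ordered differently by `w` and by `v` -/
def kendall {n : ℕ} (w v : Perm (Fin n)) : ℕ :=
  ((univ : Finset (Fin n × Fin n)).filter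
    fun p => p.1 < p.2 ∧ ¬ (w p.1 < w p.2 ↔ v p.1 < v p.2)).card

lemma kendall_eq {n : ℕ} (w v : Perm (Fin n)) :
    kendall w v = (Dis n (iot w) (iot v)).card := by
  have hlt : ∀ (u : Perm (Fin n)) (a b : Fin n), a < b → (u a < u b ↔ ¬ iot u b < iot u a) := by
    intro u a b hab
    have h1 := iot_apply u a
    have h2 := iot_apply u b
    rw [h1, h2, not_lt, Fin.lt_def]
    have h3 : (u a : ℕ) ≠ u b := by
      intro e
      have := u.injective (Fin.ext e)
      exact absurd this hab.ne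
    omega
  unfold kendall
  refine Finset.card_bij (fun p _ => ((p.1 : ℕ), (p.2 : ℕ))) ?_ ?_ ?_
  · rintro ⟨a, b⟩ hp
    simp only [mem_filter, mem_univ, true_and] at hp
    obtain ⟨h1, h2⟩ := hp
    rw [hlt w a b h1, hlt v a b h1] at h2
    unfold Dis
    rw [mem_filter, mem_product, mem_range, mem_range]
    exact ⟨⟨a.2, b.2⟩, h1, by tauto⟩
  · rintro ⟨a, b⟩ _ ⟨c, d⟩ _ h
    simp only [Prod.mk.injEq] at h
    rw [Prod.mk.injEq]
    exact ⟨Fin.ext h.1, Fin.ext h.2⟩
  · rintro ⟨a, b⟩ hp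
    unfold Dis at hp
    rw [mem_filter, mem_product, mem_range, mem_range] at hp
    obtain ⟨⟨h1, h2⟩, h3, h4⟩ := hp
    simp only at h1 h2 h3 h4
    refine ⟨(⟨a, h1⟩, ⟨b, h2⟩), ?_, rfl⟩
    simp only [mem_filter, mem_univ, true_and]
    refine ⟨h3, ?_⟩
    rw [hlt w ⟨a, h1⟩ ⟨b, h2⟩ h3, hlt v ⟨a, h1⟩ ⟨b, h2⟩ h3]
    simp only
    tauto

/-- **Comparison with a layered permutation**, for all `n`. -/
theorem cmp_layered {n : ℕ} {S : Perm (Fin n) → MvPolynomial (Fin n) ℤ} (hS : IsSchubert n S)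
    (w v : Perm (Fin n)) (hv : IsLayered v) :
    ((nu S w : ℤ) : ℝ) ≤
      Real.exp ((kendall w v : ℝ) * (2 + Real.log ((n : ℝ) ^ 2 / (kendall w v : ℝ)))) *
        ((nu S v : ℤ) : ℝ) := by
  rcases Nat.eq_zero_or_pos n with h0 | h0
  · subst h0
    have e : w = v := Subsingleton.elim _ _
    subst e
    have : kendall w w = 0 := by
      unfold kendall
      rw [card_eq_zero, filter_eq_empty_iff]
      rintro ⟨a, _⟩
      exact a.elim0
    rw [this]
    simp
  · have h := cmp_exp h0 w v hv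
    rw [← kendall_eq] at h
    have e1 : ((nu S w : ℤ) : ℝ) = ((val n (iot w) : ℚ) : ℝ) := by
      rw [← nu_eq_val hS w]; push_cast; rfl
    have e2 : ((nu S v : ℤ) : ℝ) = ((val n (iot v) : ℚ) : ℝ) := by
      rw [← nu_eq_val hS v]; push_cast; rfl
    rw [e1, e2]
    exact h

/-- **Neighbourhoods of the layered permutations.** -/
theorem far_exp {n : ℕ} (hn : 10 ^ 14 ≤ n) {S : Perm (Fin n) → MvPolynomial (Fin n) ℤ}
    (hS : IsSchubert n S) : ∃ u : Perm (Fin n), ∀ w v : Perm (Fin n), IsLayered v →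
      Real.exp ((n : ℝ) ^ 2 / 10 ^ 28 -
        (kendall w v : ℝ) * (2 + Real.log ((n : ℝ) ^ 2 / (kendall w v : ℝ)))) *
          ((nu S w : ℤ) : ℝ) ≤ ((nu S u : ℤ) : ℝ) := by
  obtain ⟨u, hu⟩ := Pool.Agent.helper54.Expl.main n hn S hS
  refine ⟨u, fun w v hv => ?_⟩
  have h1 := hu v hv
  have h2 := cmp_layered hS w v hv
  refine le_trans ?_ h1
  rw [sub_eq_add_neg, Real.exp_add, mul_assoc]
  apply mul_le_mul_of_nonneg_left _ (Real.exp_nonneg _)
  rw [Real.exp_neg, inv_mul_le_iff₀ (Real.exp_pos _)]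
  exact h2

lemma log_bound : Real.log ((10 : ℝ) ^ 30) ≤ 70 := by
  have h1 : Real.log ((10 : ℝ) ^ 30) ≤ Real.log ((2 : ℝ) ^ 100) := by
    apply Real.log_le_log (by positivity)
    norm_num
  have h2 : Real.log ((2 : ℝ) ^ 100) = 100 * Real.log 2 := by
    rw [Real.log_pow]; norm_num
  have h3 := Real.log_two_lt_d9
  linarith

lemma gain_bound {m D : ℝ} (hm : 0 < m) (hD : 0 ≤ D) (h : 10 ^ 30 * D ≤ m) :
    D * (2 + Real.log (m / D)) ≤ 72 * (m / 10 ^ 30) := by
  rcases hD.eq_or_lt with h0 | h0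
  · rw [← h0, zero_mul]; positivity
  · obtain ⟨X, hX⟩ : ∃ X, X = m / 10 ^ 30 := ⟨_, rfl⟩
    have hX0 : 0 < X := by rw [hX]; positivity
    have hmX : m = 10 ^ 30 * X := by rw [hX]; ring
    have hDX : D ≤ X := by
      rw [hmX] at h
      linarith
    have e1 : Real.log (m / D) = Real.log ((10 : ℝ) ^ 30) + Real.log (X / D) := by
      rw [← Real.log_mul (by positivity) (by positivity), hmX]
      ring_nf
    have e2 : Real.log (X / D) ≤ X / D - 1 := Real.log_le_sub_one_of_pos (by positivity)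
    have e3 : D * Real.log (X / D) ≤ X - D := by
      calc D * Real.log (X / D) ≤ D * (X / D - 1) := mul_le_mul_of_nonneg_left e2 h0.le
        _ = X - D := by field_simp
    rw [← hX, e1]
    have e4 := log_bound
    clear hmX h hX e1
    generalize Real.log ((10 : ℝ) ^ 30) = L at e4 ⊢
    generalize Real.log (X / D) = M at e3 ⊢
    have e5 := mul_le_mul_of_nonneg_left e4 h0.le
    have e6 : D * (2 + (L + M)) = 2 * D + D * L + D * M := by ring
    rw [e6]
    linarith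

/-- **Near-maximizers are far from layered permutations.** -/
theorem far_near {n : ℕ} (hn : 10 ^ 14 ≤ n) {S : Perm (Fin n) → MvPolynomial (Fin n) ℤ}
    (hS : IsSchubert n S) (w : Perm (Fin n))
    (hw : ∀ x : Perm (Fin n), ((nu S x : ℤ) : ℝ) ≤ Real.exp ((n : ℝ) ^ 2 / 10 ^ 29) *
      ((nu S w : ℤ) : ℝ)) (v : Perm (Fin n)) (hv : IsLayered v) :
    n ^ 2 ≤ 10 ^ 30 * kendall w v := by
  by_contra hc
  push Not at hc
  obtain ⟨u, hu⟩ := far_exp hn hS
  have h1 := hu w v hv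
  have h2 := h1.trans (hw u)
  have hn1 : 1 ≤ n := le_trans (by norm_num) hn
  have hpos : 0 < ((nu S w : ℤ) : ℝ) := by
    have h3 := one_le_val hn1 (fa_iot w)
    rw [← nu_eq_val hS w] at h3
    have h4 : (1 : ℤ) ≤ nu S w := by exact_mod_cast h3
    have h5 : (1 : ℝ) ≤ ((nu S w : ℤ) : ℝ) := by exact_mod_cast h4
    linarith
  have h3 := le_of_mul_le_mul_right h2 hpos
  rw [Real.exp_le_exp] at h3
  have hn2 : (0 : ℝ) < (n : ℝ) ^ 2 := by
    have : (0 : ℝ) < n := by exact_mod_cast hn1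
    positivity
  have h4 : (10 : ℝ) ^ 30 * (kendall w v : ℝ) ≤ (n : ℝ) ^ 2 := by exact_mod_cast hc.le
  have h5 := gain_bound hn2 (Nat.cast_nonneg _) h4
  have h6 : (n : ℝ) ^ 2 / 10 ^ 28 - 72 * ((n : ℝ) ^ 2 / 10 ^ 30) - (n : ℝ) ^ 2 / 10 ^ 29 =
      18 * ((n : ℝ) ^ 2 / 10 ^ 30) := by ring
  have h7 : (0 : ℝ) < (n : ℝ) ^ 2 / 10 ^ 30 := by positivity
  linarith

end Pool.Agent.helper58.Far
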