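import Pool.Agent.helper58.Far.Down

/-!
# Flattening along the blocks of a layered permutation
-/

set_option autoImplicit false

namespace Pool.Agent.helper58.Far

open Equiv Finset Pool.Agent.helper54.Schub Pool.Agent.helper54.Far

/-- a layered permutation reverses or keeps the order of two positions according to the sum of
position and value -/
lemma layered_cases {n : ℕ} {v : Perm (Fin n)} (hv : IsLayered v) (i j : Fin n) (hij : i < j) :
    ((v i : ℕ) + i = (v j : ℕ) + j ∧ v j < v i) ∨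
      ((v i : ℕ) + i < (v j : ℕ) + j ∧ v i < v j) := by
  obtain ⟨k, a, h0, hk, hinc, h⟩ := hv
  obtain ⟨t, ht, h1, h2⟩ := exists_block h0 k hinc i (by rw [hk]; exact i.2)
  obtain ⟨s, hs, h3, h4⟩ := exists_block h0 k hinc j (by rw [hk]; exact j.2)
  have hmono : ∀ q, ∀ p, p ≤ q → q ≤ k → a p ≤ a q := by
    intro q
    induction q with
    | zero => intro p hp _; rw [Nat.le_zero.1 hp]
    | succ q ih =>
      intro p hp hq
      rcases Nat.lt_or_ge p (q + 1) with h3 | h3
      · exact (ih p (by omega) (by omega)).trans (hinc q (by omega)).le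
      · rw [show p = q + 1 by omega]
  have e1 := h t ht i h1 h2
  have e2 := h s hs j h3 h4
  have hij' : (i : ℕ) < j := hij
  rcases lt_trichotomy t s with hts | hts | hts
  · right
    have m1 := hmono s (t + 1) (by omega) (by omega)
    have m2 := hinc t ht
    have m3 := hinc s hs
    refine ⟨by omega, ?_⟩
    rw [Fin.lt_def]
    omega
  · left
    subst hts
    refine ⟨by omega, ?_⟩
    rw [Fin.lt_def]
    omega
  · exfalso
    have m1 := hmono t (s + 1) (by omega) (by omega)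
    omega

/-- the key used for sorting -/
def key {n : ℕ} (w v : Perm (Fin n)) (i : Fin n) : ℕ ×ₗ ℕ := toLex ((v i : ℕ) + i, (w i : ℕ))

/-- the flattening of `w` along the blocks of `v` -/
def flat {n : ℕ} (w v : Perm (Fin n)) : Perm (Fin n) := (Tuple.sort (key w v))⁻¹

lemma flat_lt {n : ℕ} (w v : Perm (Fin n)) (i j : Fin n) :
    flat w v i < flat w v j ↔ key w v i < key w v j := by
  have hinj : Function.Injective (key w v) := by
    intro i j h
    have h1 : ((v i : ℕ) + i, (w i : ℕ)) = ((v j : ℕ) + j, (w j : ℕ)) := toLex.injective h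
    exact w.injective (Fin.ext (congrArg Prod.snd h1))
  have hm : StrictMono (key w v ∘ Tuple.sort (key w v)) :=
    (Tuple.monotone_sort (key w v)).strictMono_of_injective
      (hinj.comp (Tuple.sort (key w v)).injective)
  have h1 := hm.lt_iff_lt (a := flat w v i) (b := flat w v j)
  have e : ∀ x, (key w v ∘ Tuple.sort (key w v)) (flat w v x) = key w v x := by
    intro x
    simp [flat]
  rw [e, e] at h1
  exact h1.symm

lemma flat_inv {n : ℕ} (w v : Perm (Fin n)) (hv : IsLayered v) (i j : Fin n) (hij : i < j) :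
    flat w v j < flat w v i ↔ (w j < w i ∧ v j < v i) := by
  rw [flat_lt, key, key, Prod.Lex.toLex_lt_toLex]
  rcases layered_cases hv i j hij with ⟨h1, h2⟩ | ⟨h1, h2⟩
  · constructor
    · rintro (h | h)
      · simp only at h; omega
      · exact ⟨Fin.lt_def.2 h.2, h2⟩
    · intro h
      exact Or.inr ⟨h1.symm, Fin.lt_def.1 h.1⟩
  · constructor
    · rintro (h | h)
      · simp only at h; omega
      · have := h.1; simp only at this; omega
    · intro h
      exact absurd h.2 (not_lt.2 h2.le)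

lemma mem_Iv {n : ℕ} {w : Perm ℕ} {p : ℕ × ℕ} :
    p ∈ Iv n w ↔ p.1 < n ∧ p.2 < n ∧ p.1 < p.2 ∧ w p.2 < w p.1 := mem_invS

lemma mem_Iv_iot {n : ℕ} {w : Perm (Fin n)} {a b : ℕ} (ha : a < n) (hb : b < n) :
    (a, b) ∈ Iv n (iot w) ↔ a < b ∧ w ⟨b, hb⟩ < w ⟨a, ha⟩ := by
  rw [mem_Iv]
  have h1 := iot_apply w ⟨a, ha⟩
  have h2 := iot_apply w ⟨b, hb⟩
  simp only at h1 h2 ⊢
  rw [h1, h2, Fin.lt_def]
  tauto

lemma Iv_flat {n : ℕ} (w v : Perm (Fin n)) (hv : IsLayered v) :
    Iv n (iot (flat w v)) = Iv n (iot w) ∩ Iv n (iot v) := by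
  ext ⟨a, b⟩
  rw [mem_inter]
  by_cases ha : a < n
  · by_cases hb : b < n
    · rw [mem_Iv_iot ha hb, mem_Iv_iot ha hb, mem_Iv_iot ha hb]
      constructor
      · rintro ⟨h1, h2⟩
        have h3 := (flat_inv w v hv ⟨a, ha⟩ ⟨b, hb⟩ h1).1 h2
        exact ⟨⟨h1, h3.1⟩, h1, h3.2⟩
      · rintro ⟨⟨h1, h2⟩, _, h3⟩
        exact ⟨h1, (flat_inv w v hv ⟨a, ha⟩ ⟨b, hb⟩ h1).2 ⟨h2, h3⟩⟩
    · simp only [mem_Iv, hb, false_and, and_false, and_self]
  · simp only [mem_Iv, ha, false_and, and_self]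

lemma Dis_eq (n : ℕ) (w v : Perm ℕ) :
    Dis n w v = (Iv n w \ Iv n v) ∪ (Iv n v \ Iv n w) := by
  ext ⟨a, b⟩
  rw [mem_union, mem_sdiff, mem_sdiff, mem_Iv, mem_Iv]
  unfold Dis
  rw [mem_filter, mem_product, mem_range, mem_range]
  tauto

lemma card_Dis (n : ℕ) (w v : Perm ℕ) :
    (Dis n w v).card = (Iv n w \ Iv n v).card + (Iv n v \ Iv n w).card := by
  rw [Dis_eq, card_union_of_disjoint]
  rw [disjoint_left]
  intro p h1 h2
  rw [mem_sdiff] at h1 h2
  exact h1.2 h2.1

/-- **The basic comparison** : an arbitrary permutation against a layered one. -/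
theorem compare {n : ℕ} (hn : 1 ≤ n) (w v : Perm (Fin n)) (hv : IsLayered v) (y : ℚ) (hy : 0 < y)
    (hy1 : y ≤ 1) :
    (1 - y) ^ (n * (n - 1) / 2) * y ^ (Dis n (iot w) (iot v)).card * val n (iot w) ≤
      (1 + y) ^ (n * (n - 1) / 2) * val n (iot v) := by
  have hz := fa_iot (flat w v)
  have hI := Iv_flat w v hv
  have s1 : Iv n (iot (flat w v)) ⊆ Iv n (iot w) := by rw [hI]; exact inter_subset_left
  have s2 : Iv n (iot (flat w v)) ⊆ Iv n (iot v) := by rw [hI]; exact inter_subset_right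
  have c1 : (Iv n (iot w)).card = (Iv n (iot (flat w v))).card +
      (Iv n (iot w) \ Iv n (iot v)).card := by
    rw [hI, card_inter_add_card_sdiff]
  have c2 : (Iv n (iot v)).card = (Iv n (iot (flat w v))).card +
      (Iv n (iot v) \ Iv n (iot w)).card := by
    rw [hI, inter_comm, card_inter_add_card_sdiff]
  have h1 := val_up n _ (iot w) _ hz s1 c1 y hy
  have h2 := val_down n _ hn (iot v) _ (fa_iot v) hz s2 c2 y hy.le hy1
  rw [card_Dis, pow_add]
  have p1 : 0 ≤ (1 - y) ^ (n * (n - 1) / 2) := pow_nonneg (by linarith) _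
  have p2 : 0 ≤ y ^ (Iv n (iot v) \ Iv n (iot w)).card := by positivity
  have p3 : 0 ≤ (1 + y) ^ (n * (n - 1) / 2) := by positivity
  calc (1 - y) ^ (n * (n - 1) / 2) * (y ^ (Iv n (iot w) \ Iv n (iot v)).card *
          y ^ (Iv n (iot v) \ Iv n (iot w)).card) * val n (iot w)
      = (1 - y) ^ (n * (n - 1) / 2) * y ^ (Iv n (iot v) \ Iv n (iot w)).card *
          (y ^ (Iv n (iot w) \ Iv n (iot v)).card * val n (iot w)) := by ring
    _ ≤ (1 - y) ^ (n * (n - 1) / 2) * y ^ (Iv n (iot v) \ Iv n (iot w)).card *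
          ((1 + y) ^ (n * (n - 1) / 2) * val n (iot (flat w v))) :=
        mul_le_mul_of_nonneg_left h1 (mul_nonneg p1 p2)
    _ = (1 + y) ^ (n * (n - 1) / 2) * ((1 - y) ^ (n * (n - 1) / 2) *
          y ^ (Iv n (iot v) \ Iv n (iot w)).card * val n (iot (flat w v))) := by ring
    _ ≤ _ := mul_le_mul_of_nonneg_left h2 p3

end Pool.Agent.helper58.Far
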