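import Pool.Agent.helper58.Far.Law
import Pool.Agent.helper54.Schub.Swap

/-!
# Inversions, containment of inversion sets, and the two basic inequalities
-/

set_option autoImplicit false

namespace Pool.Agent.helper58.Far

open Equiv Finset Pool.Agent.helper54.Schub

lemma ap_inv (v : Perm ℕ) (x : ℕ) : v (v⁻¹ x) = x := by simp
lemma inv_ap (v : Perm ℕ) (x : ℕ) : v⁻¹ (v x) = x := by simp

/-- containment of the sets of inversions (pairs of positions) -/
def Rel (z v : Perm ℕ) : Prop := ∀ a b, a < b → z b < z a → v b < v a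

/-- the inversions with positions below `n` -/
def invS (n : ℕ) (w : Perm ℕ) : Finset (ℕ × ℕ) :=
  (range n ×ˢ range n).filter fun p => p.1 < p.2 ∧ w p.2 < w p.1

/-- the number of inversions with positions below `n` -/
def invN (n : ℕ) (w : Perm ℕ) : ℕ := (invS n w).card

lemma mem_invS {n : ℕ} {w : Perm ℕ} {p : ℕ × ℕ} :
    p ∈ invS n w ↔ p.1 < n ∧ p.2 < n ∧ p.1 < p.2 ∧ w p.2 < w p.1 := by
  rw [invS, mem_filter, mem_product, mem_range, mem_range]; tauto

lemma sj_lt {n j x : ℕ} (hj : j + 1 < n) (hx : x < n) : sj j x < n := by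
  rw [sj_apply]; split_ifs <;> omega

lemma sj_sj (j x : ℕ) : sj j (sj j x) = x := by
  simp only [sj_apply]; split_ifs <;> omega

lemma sj_mono {j a b : ℕ} (h : a < b) (h2 : ¬ (a = j ∧ b = j + 1)) : sj j a < sj j b := by
  simp only [sj_apply]; split_ifs <;> omega

lemma invN_mul_sj {n j : ℕ} {w : Perm ℕ} (hj : j + 1 < n) (h : w (j + 1) < w j) :
    invN n w = invN n (w * sj j) + 1 := by
  have h0 : (j, j + 1) ∈ invS n w := mem_invS.2 ⟨by simp only; omega, hj, by simp, h⟩
  have h1 : ((invS n w).erase (j, j + 1)).card = (invS n (w * sj j)).card := by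
    refine Finset.card_nbij' (fun p => (sj j p.1, sj j p.2)) (fun p => (sj j p.1, sj j p.2))
      ?_ ?_ ?_ ?_
    · rintro ⟨a, b⟩ hp
      rw [Finset.mem_coe, mem_erase, mem_invS] at hp
      obtain ⟨hne, ha, hb, hab, hw⟩ := hp
      simp only at ha hb hab hw
      rw [Finset.mem_coe, mem_invS]
      refine ⟨sj_lt hj ha, sj_lt hj hb, sj_mono hab ?_, ?_⟩
      · rintro ⟨h1, h2⟩; exact hne (by rw [Prod.mk.injEq]; exact ⟨h1, h2⟩)
      · simp only [Perm.mul_apply, sj_sj]; exact hw
    · rintro ⟨a, b⟩ hp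
      rw [Finset.mem_coe, mem_invS] at hp
      obtain ⟨ha, hb, hab, hw⟩ := hp
      simp only [Perm.mul_apply] at ha hb hab hw
      have hn : ¬ (a = j ∧ b = j + 1) := by
        rintro ⟨rfl, rfl⟩
        rw [sj_left, sj_right] at hw
        omega
      rw [Finset.mem_coe, mem_erase, mem_invS]
      refine ⟨?_, sj_lt hj ha, sj_lt hj hb, sj_mono hab hn, hw⟩
      intro he
      have e1 : sj j a = j := congrArg Prod.fst he
      have e2 : sj j b = j + 1 := congrArg Prod.snd he
      have e3 : a = j + 1 := by rw [← sj_sj j a, e1, sj_left]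
      have e4 : b = j := by rw [← sj_sj j b, e2, sj_right]
      omega
    · rintro ⟨a, b⟩ _; simp only [sj_sj]
    · rintro ⟨a, b⟩ _; simp only [sj_sj]
  rw [card_erase_of_mem h0] at h1
  have h2 : 0 < (invS n w).card := card_pos.2 ⟨_, h0⟩
  unfold invN
  omega

lemma Rel.refl (v : Perm ℕ) : Rel v v := fun _ _ _ h => h

lemma rel_both {z w : Perm ℕ} {j : ℕ} (h : Rel z w) (hz : z (j + 1) < z j) :
    Rel (z * sj j) (w * sj j) := by
  intro a b hab hb
  rw [Perm.mul_apply, Perm.mul_apply] at hb ⊢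
  have hn : ¬ (a = j ∧ b = j + 1) := by
    rintro ⟨rfl, rfl⟩
    rw [sj_left, sj_right] at hb
    omega
  exact h _ _ (sj_mono hab hn) hb

lemma rel_one {z w : Perm ℕ} {j : ℕ} (h : Rel z w) (hz : ¬ z (j + 1) < z j)
    (hw : w (j + 1) < w j) : Rel z (w * sj j) := by
  intro a b hab hb
  rw [Perm.mul_apply, Perm.mul_apply]
  have hz' : z j < z (j + 1) := by
    have : z j ≠ z (j + 1) := by simp
    omega
  by_cases ha : a = j
  · subst ha
    by_cases hb1 : b = a + 1
    · subst hb1; omega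
    · rw [sj_left, sj_of_ne (by omega) hb1]
      exact h _ _ (by omega) (by omega)
  by_cases ha1 : a = j + 1
  · subst ha1
    rw [sj_right, sj_of_ne (by omega) (by omega)]
    have := h _ _ hab hb
    omega
  by_cases hb0 : b = j
  · subst hb0
    rw [sj_left, sj_of_ne ha ha1]
    have := h _ _ hab hb
    omega
  by_cases hb1 : b = j + 1
  · subst hb1
    rw [sj_right, sj_of_ne ha ha1]
    exact h a j (by omega) (by omega)
  rw [sj_of_ne ha ha1, sj_of_ne hb0 hb1]
  exact h _ _ hab hb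

lemma rel_left {z v : Perm ℕ} {j : ℕ} (h : Rel z v) (hz : z (v⁻¹ (j + 1)) < z (v⁻¹ j)) :
    v⁻¹ (j + 1) < v⁻¹ j ∧ Rel z (sj j * v) := by
  have hP : v⁻¹ (j + 1) < v⁻¹ j := by
    by_contra hc
    have hne : v⁻¹ (j + 1) ≠ v⁻¹ j := by simp
    have h1 := h (v⁻¹ j) (v⁻¹ (j + 1)) (by omega) hz
    rw [ap_inv, ap_inv] at h1
    omega
  refine ⟨hP, ?_⟩
  intro a b hab hb
  rw [Perm.mul_apply, Perm.mul_apply]
  have h1 := h a b hab hb
  apply sj_mono h1
  rintro ⟨e1, e2⟩
  have e3 : b = v⁻¹ j := by rw [← e1, inv_ap]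
  have e4 : a = v⁻¹ (j + 1) := by rw [← e2, inv_ap]
  rw [← e3, ← e4] at hz
  omega

lemma eq_one_of_no_inv {z : Perm ℕ} (h : ∀ a b, a < b → ¬ z b < z a) : z = 1 := by
  have hm : StrictMono z := by
    intro a b hab
    have h1 := h a b hab
    have h2 : z a ≠ z b := fun e => by have := z.injective e; omega
    omega
  have hm' : StrictMono (z⁻¹ : Perm ℕ) := by
    intro a b hab
    by_contra hc
    have h2 : z⁻¹ a ≠ z⁻¹ b := fun e => by have := (z⁻¹).injective e; omega
    have h3 : z⁻¹ b < z⁻¹ a := by omega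
    have h4 := hm h3
    rw [ap_inv, ap_inv] at h4
    omega
  ext x
  have h1 := hm.le_apply (x := x)
  have h2 := hm'.le_apply (x := z x)
  rw [inv_ap] at h2
  rw [Perm.one_apply]
  omega

lemma rc_wp (x : ℚ) : ∀ L : List ℕ, RC (wp (lam ℚ) x L)
  | [] => rc_one
  | (j :: L) => rc_mul (rc_fac x j) (rc_wp x L)

lemma wp_nonneg {x : ℚ} (hx : 0 ≤ x) {f : Perm ℕ → ℚ} (hf : ∀ w, 0 ≤ f w) : ∀ (L : List ℕ)
    (w : Perm ℕ), 0 ≤ wp (lam ℚ) x L f w
  | [], w => by simpa using hf w
  | (j :: L), w => by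
    rw [wp_cons, Module.End.mul_apply, fac_apply, Pi.add_apply, Pi.smul_apply, lam_apply,
      smul_eq_mul]
    have h1 := wp_nonneg hx hf L w
    have h2 := wp_nonneg hx hf L (sj j * w)
    split_ifs
    · positivity
    · simpa using h1

lemma cf_wp_nonneg {x : ℚ} (hx : 0 ≤ x) (L : List ℕ) (w : Perm ℕ) : 0 ≤ cf w (wp (lam ℚ) x L) :=
  wp_nonneg hx del_nonneg L w

lemma cf_wp_snoc (x : ℚ) (L : List ℕ) (j : ℕ) (w : Perm ℕ) :
    cf w (wp (lam ℚ) x (L ++ [j])) = cf w (wp (lam ℚ) x L) +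
      x * (if w (j + 1) < w j then cf (w * sj j) (wp (lam ℚ) x L) else 0) := by
  rw [wp_snoc, fac, mul_add, mul_one, mul_smul_comm, cf_add, cf_smul, cf_mul_lam (rc_wp x L)]

lemma cf_one (w : Perm ℕ) : cf w (1 : Module.End ℚ (Perm ℕ → ℚ)) = del ℚ w := rfl

/-- **First inequality** : going up in the order. -/
theorem up_bound (n : ℕ) {t : ℚ} (ht : 0 < t) (L : List ℕ) (hL : ∀ j ∈ L, j + 1 < n) :
    ∀ (z w : Perm ℕ) (k : ℕ), Rel z w → invN n w = invN n z + k →
      t ^ k * cf w (wp (lam ℚ) (1 : ℚ) L) ≤ (1 + t) ^ L.length * cf z (wp (lam ℚ) (1 : ℚ) L) := by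
  induction L using List.reverseRecOn with
  | nil =>
    intro z w k h hk
    rw [wp_nil, cf_one, cf_one]
    by_cases hw : w = 1
    · subst hw
      have hz : z = 1 := by
        apply eq_one_of_no_inv
        intro a b hab hb
        have := h a b hab hb
        simp only [Perm.coe_one, id_eq] at this
        omega
      subst hz
      have : k = 0 := by omega
      subst this
      simp
    · rw [del_ne hw, mul_zero]
      have := del_nonneg z
      positivity
  | append_singleton L j ih =>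
    intro z w k h hk
    have hj : j + 1 < n := hL j (by simp)
    have ih' := ih (fun i hi => hL i (by simp [hi]))
    rw [cf_wp_snoc, cf_wp_snoc, one_mul, one_mul, List.length_append, List.length_singleton,
      pow_succ]
    have p1 : 0 < (1 + t) ^ L.length := by positivity
    have zz := cf_wp_nonneg zero_le_one L z
    have zz2 := cf_wp_nonneg zero_le_one L (z * sj j)
    have ww2 := cf_wp_nonneg zero_le_one L (w * sj j)
    by_cases hw : w (j + 1) < w j
    · rw [if_pos hw]
      by_cases hz : z (j + 1) < z j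
      · rw [if_pos hz]
        have e1 := invN_mul_sj hj hw
        have e2 := invN_mul_sj hj hz
        have a1 := ih' z w k h hk
        have a2 := ih' (z * sj j) (w * sj j) k (rel_both h hz) (by omega)
        calc t ^ k * (cf w (wp (lam ℚ) (1 : ℚ) L) + cf (w * sj j) (wp (lam ℚ) (1 : ℚ) L))
            = t ^ k * cf w (wp (lam ℚ) (1 : ℚ) L) + t ^ k * cf (w * sj j) (wp (lam ℚ) (1 : ℚ) L) := by ring
          _ ≤ (1 + t) ^ L.length * cf z (wp (lam ℚ) (1 : ℚ) L) +
              (1 + t) ^ L.length * cf (z * sj j) (wp (lam ℚ) (1 : ℚ) L) := add_le_add a1 a2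
          _ = (1 + t) ^ L.length * (cf z (wp (lam ℚ) (1 : ℚ) L) + cf (z * sj j) (wp (lam ℚ) (1 : ℚ) L)) * 1 := by
              ring
          _ ≤ (1 + t) ^ L.length * (cf z (wp (lam ℚ) (1 : ℚ) L) + cf (z * sj j) (wp (lam ℚ) (1 : ℚ) L)) *
              (1 + t) := by
              apply mul_le_mul_of_nonneg_left (by linarith) (by positivity)
          _ = _ := by ring
      · rw [if_neg hz]
        have e1 := invN_mul_sj hj hw
        have r1 := rel_one h hz hw
        have a1 := ih' z w k h hk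
        rcases Nat.eq_zero_or_pos k with hk0 | hk0
        · exfalso
          -- the inversions of `z` are inversions of `w * sj j`, so there are fewer
          have hsub : invS n z ⊆ invS n (w * sj j) := by
            rintro ⟨a, b⟩ hp
            rw [mem_invS] at hp ⊢
            exact ⟨hp.1, hp.2.1, hp.2.2.1, r1 _ _ hp.2.2.1 hp.2.2.2⟩
          have := card_le_card hsub
          unfold invN at hk e1
          omega
        · obtain ⟨m, rfl⟩ : ∃ m, k = m + 1 := ⟨k - 1, by omega⟩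
          have a2 := ih' z (w * sj j) m r1 (by omega)
          calc t ^ (m + 1) * (cf w (wp (lam ℚ) (1 : ℚ) L) + cf (w * sj j) (wp (lam ℚ) (1 : ℚ) L))
              = t ^ (m + 1) * cf w (wp (lam ℚ) (1 : ℚ) L) +
                t * (t ^ m * cf (w * sj j) (wp (lam ℚ) (1 : ℚ) L)) := by ring
            _ ≤ (1 + t) ^ L.length * cf z (wp (lam ℚ) (1 : ℚ) L) +
                t * ((1 + t) ^ L.length * cf z (wp (lam ℚ) (1 : ℚ) L)) :=
                add_le_add a1 (mul_le_mul_of_nonneg_left a2 ht.le)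
            _ = _ := by ring
    · rw [if_neg hw, add_zero]
      have a1 := ih' z w k h hk
      calc t ^ k * cf w (wp (lam ℚ) (1 : ℚ) L) ≤ (1 + t) ^ L.length * cf z (wp (lam ℚ) (1 : ℚ) L) := a1
        _ = (1 + t) ^ L.length * cf z (wp (lam ℚ) (1 : ℚ) L) * 1 := by ring
        _ ≤ (1 + t) ^ L.length * cf z (wp (lam ℚ) (1 : ℚ) L) * (1 + t) := by
            apply mul_le_mul_of_nonneg_left (by linarith) (by positivity)
        _ = (1 + t) ^ L.length * (1 + t) * (cf z (wp (lam ℚ) (1 : ℚ) L) + 0) := by ring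
        _ ≤ _ := by
            apply mul_le_mul_of_nonneg_left _ (by positivity)
            split_ifs <;> linarith

/-- homogeneity -/
theorem cf_wp_homog (n : ℕ) (y : ℚ) (L : List ℕ) (hL : ∀ j ∈ L, j + 1 < n) :
    ∀ w : Perm ℕ, cf w (wp (lam ℚ) y L) = y ^ invN n w * cf w (wp (lam ℚ) (1 : ℚ) L) := by
  induction L using List.reverseRecOn with
  | nil =>
    intro w
    rw [wp_nil, wp_nil, cf_one]
    by_cases hw : w = 1
    · subst hw
      have : invN n 1 = 0 := by
        unfold invN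
        rw [card_eq_zero, eq_empty_iff_forall_notMem]
        rintro ⟨a, b⟩ hp
        rw [mem_invS] at hp
        simp only [Perm.coe_one, id_eq] at hp
        omega
      rw [this, pow_zero, one_mul]
    · rw [del_ne hw, mul_zero]
  | append_singleton L j ih =>
    intro w
    have hj : j + 1 < n := hL j (by simp)
    have ih' := ih (fun i hi => hL i (by simp [hi]))
    rw [cf_wp_snoc, cf_wp_snoc, one_mul, ih' w]
    by_cases hw : w (j + 1) < w j
    · rw [if_pos hw, if_pos hw, ih' (w * sj j), invN_mul_sj hj hw, pow_succ]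
      ring
    · rw [if_neg hw, if_neg hw]; ring

/-- **Second inequality** : products are bounded below along factorizations. -/
theorem mul_lower {y : ℚ} (hy : 0 ≤ y) {f : Perm ℕ → ℚ} (hf : ∀ w, 0 ≤ f w) : ∀ (L : List ℕ)
    (v z : Perm ℕ), Rel z v →
      cf (v * z⁻¹) (wp (lam ℚ) y L) * f z ≤ wp (lam ℚ) y L f v
  | [], v, z, _ => by
    rw [wp_nil, cf_one, Module.End.one_apply]
    by_cases h : v * z⁻¹ = 1
    · rw [h, del_one, one_mul]
      have : v = z := by rwa [mul_inv_eq_one] at h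
      rw [this]
    · rw [del_ne h, zero_mul]; exact hf v
  | (j :: L), v, z, h => by
    have ih1 := mul_lower hy hf L v z h
    rw [wp_cons, Module.End.mul_apply, fac_apply, Pi.add_apply, Pi.smul_apply, lam_apply,
      smul_eq_mul, fac, add_mul, one_mul, smul_mul_assoc, cf_add, cf_smul, cf_lam_mul]
    have e : ∀ x, (v * z⁻¹)⁻¹ x = z (v⁻¹ x) := by intro x; simp [mul_inv_rev]
    rw [e, e, add_mul]
    by_cases hc : z (v⁻¹ (j + 1)) < z (v⁻¹ j)
    · obtain ⟨h1, h2⟩ := rel_left h hc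
      have ih2 := mul_lower hy hf L (sj j * v) z h2
      rw [if_pos hc, if_pos h1, ← mul_assoc (sj j) v z⁻¹, mul_assoc y]
      exact add_le_add ih1 (mul_le_mul_of_nonneg_left ih2 hy)
    · rw [if_neg hc, mul_zero, zero_mul]
      refine add_le_add ih1 (mul_nonneg hy ?_)
      split_ifs
      · exact wp_nonneg hy hf L _
      · exact le_rfl

/-- the coefficients are natural numbers -/
lemma wp_nat {f : Perm ℕ → ℚ} (hf : ∀ w, ∃ m : ℕ, f w = m) : ∀ (L : List ℕ) (w : Perm ℕ),
    ∃ m : ℕ, wp (lam ℚ) (1 : ℚ) L f w = m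
  | [], w => by simpa using hf w
  | (j :: L), w => by
    rw [wp_cons, Module.End.mul_apply, fac_apply, Pi.add_apply, Pi.smul_apply, lam_apply,
      smul_eq_mul, one_mul]
    obtain ⟨m1, h1⟩ := wp_nat hf L w
    obtain ⟨m2, h2⟩ := wp_nat hf L (sj j * w)
    split_ifs
    · exact ⟨m1 + m2, by rw [h1, h2]; push_cast; rfl⟩
    · exact ⟨m1, by rw [h1, add_zero]⟩

lemma cf_wp_nat (L : List ℕ) (w : Perm ℕ) : ∃ m : ℕ, cf w (wp (lam ℚ) (1 : ℚ) L) = m := by
  refine wp_nat (fun w => ?_) L w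
  by_cases h : w = 1
  · exact ⟨1, by rw [h, del_one]; simp⟩
  · exact ⟨0, by rw [del_ne h]; simp⟩

lemma one_le_of_pos {L : List ℕ} {w : Perm ℕ} (h : 0 < cf w (wp (lam ℚ) (1 : ℚ) L)) :
    1 ≤ cf w (wp (lam ℚ) (1 : ℚ) L) := by
  obtain ⟨m, hm⟩ := cf_wp_nat L w
  rw [hm] at h ⊢
  exact_mod_cast h

/-- small variables -/
lemma wp_small {x : ℚ} (hx : 0 ≤ x) (hx1 : x ≤ 1) {f : Perm ℕ → ℚ} (hf : ∀ w, 0 ≤ f w) :
    ∀ (L : List ℕ) (w : Perm ℕ), x ^ L.length * wp (lam ℚ) (1 : ℚ) L f w ≤ wp (lam ℚ) x L f w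
  | [], w => by simp
  | (j :: L), w => by
    have h1 := wp_small hx hx1 hf L w
    have h2 := wp_small hx hx1 hf L (sj j * w)
    have n1 := wp_nonneg zero_le_one hf L w
    have n2 := wp_nonneg zero_le_one hf L (sj j * w)
    rw [wp_cons, Module.End.mul_apply, fac_apply, Pi.add_apply, Pi.smul_apply, lam_apply,
      smul_eq_mul, one_mul, wp_cons, Module.End.mul_apply, fac_apply, Pi.add_apply, Pi.smul_apply,
      lam_apply, smul_eq_mul, List.length_cons, pow_succ]
    have p0 : 0 ≤ x ^ L.length := by positivity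
    have h3 : x ^ L.length * x * wp (lam ℚ) (1 : ℚ) L f w ≤ wp (lam ℚ) x L f w := by
      refine le_trans ?_ h1
      have : x ^ L.length * x ≤ x ^ L.length * 1 := mul_le_mul_of_nonneg_left hx1 p0
      rw [mul_one] at this
      exact mul_le_mul_of_nonneg_right this n1
    split_ifs
    · have h4 : x * (x ^ L.length * wp (lam ℚ) (1 : ℚ) L f (sj j * w)) ≤
          x * wp (lam ℚ) x L f (sj j * w) := mul_le_mul_of_nonneg_left h2 hx
      calc x ^ L.length * x * (wp (lam ℚ) (1 : ℚ) L f w + wp (lam ℚ) (1 : ℚ) L f (sj j * w))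
          = x ^ L.length * x * wp (lam ℚ) (1 : ℚ) L f w +
            x * (x ^ L.length * wp (lam ℚ) (1 : ℚ) L f (sj j * w)) := by ring
        _ ≤ _ := add_le_add h3 h4
    · rw [add_zero, mul_zero, add_zero]; exact h3

end Pool.Agent.helper58.Far
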