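import Pool.Agent.helper54.Schub.Uniq

/-!
# The group law for constant variables and words
-/

set_option autoImplicit false

namespace Pool.Agent.helper58.Far

open Equiv Pool.Agent.helper54.Schub

variable {K R : Type*} [CommRing K] [Ring R] [Algebra K R] {u : ℕ → R}

/-- the product `𝔖` with all variables equal to `x` -/
def schx (u : ℕ → R) (x : K) : ℕ → ℕ → R
  | 0, _ => 1
  | (l + 1), p => dn u x (l + 1) p * schx u x l (p + 1)

/-- the reversed product with all variables equal to `y` -/
def srv (u : ℕ → R) (y : K) : ℕ → ℕ → R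
  | 0, _ => 1
  | (l + 1), p => srv u y l (p + 1) * up u y (l + 1) p

lemma schx_succ (u : ℕ → R) (x : K) (l p : ℕ) :
    schx u x (l + 1) p = dn u x (l + 1) p * schx u x l (p + 1) := rfl
lemma srv_succ (u : ℕ → R) (x : K) (l p : ℕ) :
    srv u x (l + 1) p = srv u x l (p + 1) * up u x (l + 1) p := rfl

lemma sch_eq_schx (u : ℕ → R) : ∀ (l p : ℕ), sch K u l p = schx u (1 : K) l p
  | 0, _ => rfl
  | (l + 1), p => by rw [sch_succ, schx_succ, sch_eq_schx u l (p + 1)]

lemma up_comm_dn (hu : NilCox u) (x y : K) (l p : ℕ) :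
    up u y l p * dn u x l p = dn u x l p * up u y l p := by
  have h1 : dn u (-y) l p * up u y l p = 1 := by
    have := dn_mul_up_neg hu (-y) l p
    rwa [neg_neg] at this
  have h2 : up u y l p * dn u (-y) l p = 1 := by
    have := up_neg_mul_dn hu (-y) l p
    rwa [neg_neg] at this
  calc up u y l p * dn u x l p
      = up u y l p * dn u x l p * (dn u (-y) l p * up u y l p) := by rw [h1, mul_one]
    _ = up u y l p * (dn u x l p * dn u (-y) l p) * up u y l p := by noncomm_ring
    _ = up u y l p * (dn u (-y) l p * dn u x l p) * up u y l p := by rw [dn_comm hu x (-y) l p]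
    _ = (up u y l p * dn u (-y) l p) * dn u x l p * up u y l p := by noncomm_ring
    _ = _ := by rw [h2, one_mul]

lemma fac_comm_up (hu : NilCox u) (x y : K) (i : ℕ) : ∀ (l p : ℕ), i + 2 ≤ p →
    fac u y i * up u x l p = up u x l p * fac u y i
  | 0, p, _ => by simp
  | (l + 1), p, h => by
    rw [up_succ, ← mul_assoc, fac_comm_fac hu y x i p h, mul_assoc,
      fac_comm_up hu x y i l (p + 1) (by omega), mul_assoc]

lemma fac_comm_srv (hu : NilCox u) (x y : K) (i : ℕ) : ∀ (l p : ℕ), i + 2 ≤ p →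
    fac u y i * srv u x l p = srv u x l p * fac u y i
  | 0, p, _ => by simp [srv]
  | (l + 1), p, h => by
    rw [srv_succ, ← mul_assoc, fac_comm_srv hu x y i l (p + 1) (by omega), mul_assoc,
      fac_comm_up hu x y i (l + 1) p h, mul_assoc]

lemma dn_mul_up (hu : NilCox u) (x y : K) (l p : ℕ) :
    dn u x (l + 1) p * up u y (l + 1) p =
      dn u x l (p + 1) * fac u (x + y) p * up u y l (p + 1) := by
  rw [dn_succ, up_succ]
  calc dn u x l (p + 1) * fac u x p * (fac u y p * up u y l (p + 1))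
      = dn u x l (p + 1) * (fac u x p * fac u y p) * up u y l (p + 1) := by noncomm_ring
    _ = _ := by rw [fac_mul_fac_same hu]

lemma srv_mul_dn (hu : NilCox u) (x y : K) : ∀ (l p : ℕ),
    srv u y (l + 1) p * dn u x (l + 1) p = dn u (x + y) (l + 1) p * srv u y l (p + 1)
  | 0, p => by
    simp only [srv, one_mul, up_succ, dn_succ, up_zero, dn_zero, mul_one]
    rw [fac_mul_fac_same hu, add_comm]
  | (l + 1), p => by
    have ih := srv_mul_dn hu x y l (p + 1)
    rw [srv_succ, mul_assoc, up_comm_dn hu, dn_mul_up hu]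
    calc srv u y (l + 1) (p + 1) * (dn u x (l + 1) (p + 1) * fac u (x + y) p *
            up u y (l + 1) (p + 1))
        = (srv u y (l + 1) (p + 1) * dn u x (l + 1) (p + 1)) * fac u (x + y) p *
            up u y (l + 1) (p + 1) := by noncomm_ring
      _ = dn u (x + y) (l + 1) (p + 1) * (srv u y l (p + 1 + 1) * fac u (x + y) p) *
            up u y (l + 1) (p + 1) := by rw [ih]; noncomm_ring
      _ = dn u (x + y) (l + 1) (p + 1) * (fac u (x + y) p * srv u y l (p + 1 + 1)) *
            up u y (l + 1) (p + 1) := by rw [fac_comm_srv hu y (x + y) p l (p + 1 + 1) (by omega)]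
      _ = (dn u (x + y) (l + 1) (p + 1) * fac u (x + y) p) * (srv u y l (p + 1 + 1) *
            up u y (l + 1) (p + 1)) := by noncomm_ring
      _ = _ := by rw [← dn_succ, ← srv_succ]

/-- **Group law** : `𝔖(x + y) = 𝔖'(y) 𝔖(x)` for constant variables. -/
theorem srv_mul_schx (hu : NilCox u) (x y : K) : ∀ (l p : ℕ),
    srv u y l p * schx u x l p = schx u (x + y) l p
  | 0, p => by simp [srv, schx]
  | (l + 1), p => by
    rw [schx_succ, ← mul_assoc, srv_mul_dn hu, mul_assoc, srv_mul_schx hu x y l (p + 1),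
      ← schx_succ]

/-- product over a word -/
def wp (u : ℕ → R) (x : K) : List ℕ → R
  | [] => 1
  | (j :: L) => fac u x j * wp u x L

@[simp] lemma wp_nil (u : ℕ → R) (x : K) : wp u x [] = 1 := rfl
lemma wp_cons (u : ℕ → R) (x : K) (j : ℕ) (L : List ℕ) :
    wp u x (j :: L) = fac u x j * wp u x L := rfl

lemma wp_append (u : ℕ → R) (x : K) : ∀ L M : List ℕ, wp u x (L ++ M) = wp u x L * wp u x M
  | [], M => by simp
  | (j :: L), M => by rw [List.cons_append, wp_cons, wp_append u x L M, wp_cons, mul_assoc]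

lemma wp_snoc (u : ℕ → R) (x : K) (L : List ℕ) (j : ℕ) :
    wp u x (L ++ [j]) = wp u x L * fac u x j := by
  rw [wp_append, wp_cons, wp_nil, mul_one]

/-- the words of the products -/
def wdn : ℕ → ℕ → List ℕ
  | 0, _ => []
  | (l + 1), p => wdn l (p + 1) ++ [p]
def wup : ℕ → ℕ → List ℕ
  | 0, _ => []
  | (l + 1), p => p :: wup l (p + 1)
def wsc : ℕ → ℕ → List ℕ
  | 0, _ => []
  | (l + 1), p => wdn (l + 1) p ++ wsc l (p + 1)
def wsr : ℕ → ℕ → List ℕ
  | 0, _ => []
  | (l + 1), p => wsr l (p + 1) ++ wup (l + 1) p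

lemma wp_wdn (u : ℕ → R) (x : K) : ∀ l p, wp u x (wdn l p) = dn u x l p
  | 0, _ => rfl
  | (l + 1), p => by rw [wdn, wp_snoc, wp_wdn u x l (p + 1), dn_succ]
lemma wp_wup (u : ℕ → R) (x : K) : ∀ l p, wp u x (wup l p) = up u x l p
  | 0, _ => rfl
  | (l + 1), p => by rw [wup, wp_cons, wp_wup u x l (p + 1), up_succ]
lemma wp_wsc (u : ℕ → R) (x : K) : ∀ l p, wp u x (wsc l p) = schx u x l p
  | 0, _ => rfl
  | (l + 1), p => by rw [wsc, wp_append, wp_wdn, wp_wsc u x l (p + 1), schx_succ]
lemma wp_wsr (u : ℕ → R) (x : K) : ∀ l p, wp u x (wsr l p) = srv u x l p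
  | 0, _ => rfl
  | (l + 1), p => by rw [wsr, wp_append, wp_wup, wp_wsr u x l (p + 1), srv_succ]

lemma length_wdn : ∀ l p, (wdn l p).length = l
  | 0, _ => rfl
  | (l + 1), p => by simp [wdn, length_wdn l (p + 1)]
lemma length_wup : ∀ l p, (wup l p).length = l
  | 0, _ => rfl
  | (l + 1), p => by simp [wup, length_wup l (p + 1)]
lemma length_wsc : ∀ l p, 2 * (wsc l p).length = l * (l + 1)
  | 0, _ => rfl
  | (l + 1), p => by
    rw [wsc, List.length_append, length_wdn, mul_add, length_wsc l (p + 1)]; ring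
lemma length_wsr : ∀ l p, 2 * (wsr l p).length = l * (l + 1)
  | 0, _ => rfl
  | (l + 1), p => by
    rw [wsr, List.length_append, length_wup, mul_add, length_wsr l (p + 1)]; ring

lemma mem_wdn : ∀ l p, ∀ j ∈ wdn l p, j < p + l
  | 0, _ => by simp [wdn]
  | (l + 1), p => by
    intro j hj
    rw [wdn, List.mem_append, List.mem_singleton] at hj
    rcases hj with h | h
    · have := mem_wdn l (p + 1) j h; omega
    · omega
lemma mem_wup : ∀ l p, ∀ j ∈ wup l p, j < p + l
  | 0, _ => by simp [wup]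
  | (l + 1), p => by
    intro j hj
    rw [wup, List.mem_cons] at hj
    rcases hj with h | h
    · omega
    · have := mem_wup l (p + 1) j h; omega
lemma mem_wsc : ∀ l p, ∀ j ∈ wsc l p, j < p + l
  | 0, _ => by simp [wsc]
  | (l + 1), p => by
    intro j hj
    rw [wsc, List.mem_append] at hj
    rcases hj with h | h
    · exact mem_wdn _ _ j h
    · have := mem_wsc l (p + 1) j h; omega
lemma mem_wsr : ∀ l p, ∀ j ∈ wsr l p, j < p + l
  | 0, _ => by simp [wsr]
  | (l + 1), p => by
    intro j hj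
    rw [wsr, List.mem_append] at hj
    rcases hj with h | h
    · have := mem_wsr l (p + 1) j h; omega
    · exact mem_wup _ _ j h

end Pool.Agent.helper58.Far
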